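import Pool.Agent.SLA.Defs

/-!
# MP_91c4ba_an : basic lemmas (helper71)
-/

set_option autoImplicit false

namespace SLA

open Finset

variable (Y : Sys)

theorem Sys.alpha_apply (n p r : ℕ) (f : E) :
    Y.alpha n p r f = (1 / (Y.M (n + 1) : ℝ)) *
      ∑ g ∈ range (Y.M (n + 1)), Y.sig n r g * f (n + 1, p, g) := by
  simp [Sys.alpha, ev_apply]

theorem Sys.M_pos' (n : ℕ) : (0 : ℝ) < Y.M n := by exact_mod_cast Y.M_pos n

theorem Sys.N_pos' (n : ℕ) : (0 : ℝ) < Y.N n := by exact_mod_cast Y.N_pos n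

/-- `alpha^n_{p,r} f` is controlled by the values of `f` on the slice `(n+1, p)`. -/
theorem Sys.abs_alpha_le (n p r : ℕ) (f : E) (c : ℝ)
    (h : ∀ g, g < Y.M (n + 1) → |f (n + 1, p, g)| ≤ c) : |Y.alpha n p r f| ≤ c := by
  rw [Y.alpha_apply, abs_mul, abs_of_pos (by have := Y.M_pos' (n+1); positivity)]
  have hM := Y.M_pos' (n+1)
  have h1 : |∑ g ∈ range (Y.M (n + 1)), Y.sig n r g * f (n + 1, p, g)|
      ≤ ∑ g ∈ range (Y.M (n + 1)), c := by
    refine (abs_sum_le_sum_abs _ _).trans (sum_le_sum fun g hg => ?_)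
    rw [abs_mul]
    have h2 := h g (mem_range.1 hg)
    calc |Y.sig n r g| * |f (n + 1, p, g)| ≤ 1 * |f (n + 1, p, g)| :=
          mul_le_mul_of_nonneg_right (Y.sig_le _ _ _) (abs_nonneg _)
      _ ≤ c := by rw [one_mul]; exact h2
  rw [sum_const, card_range, nsmul_eq_mul] at h1
  calc 1 / (Y.M (n+1) : ℝ) * |∑ g ∈ range (Y.M (n + 1)), Y.sig n r g * f (n + 1, p, g)|
      ≤ 1 / (Y.M (n+1) : ℝ) * ((Y.M (n + 1) : ℝ) * c) :=
        mul_le_mul_of_nonneg_left h1 (by positivity)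
    _ = c := by field_simp

theorem Sys.abs_alpha_le_norm (n p r : ℕ) (f : E) : |Y.alpha n p r f| ≤ ‖f‖ :=
  Y.abs_alpha_le n p r f ‖f‖ (fun g _ => E.abs_le_norm f (n + 1, p, g))

theorem Sys.norm_blk_le (n p r : ℕ) : ‖Y.blk n p r‖ ≤ 1 := by
  rw [E.norm_le zero_le_one]
  intro ω
  exact Y.abs_blkFun_le n p r ω

theorem Sys.norm_xv_le (γ : PF) : ‖Y.xv γ‖ ≤ 1 := by
  rw [E.norm_le zero_le_one]
  intro ω
  exact Y.abs_xFun_le γ ω

/-- `blk` lives on the levels `n` and `n+1`. -/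
theorem Sys.blk_eq_zero (n p r : ℕ) (ω : Om) (h1 : ω.1 ≠ n) (h2 : ω.1 ≠ n + 1) :
    Y.blk n p r ω = 0 := by
  rw [Sys.blk_apply]
  unfold Sys.blkFun
  simp [h1, h2]

/-- `trm gamma m` lives on the level `ω.1 / 2 = m`. -/
theorem Sys.trm_eq_zero (γ : PF) (m : ℕ) (ω : Om) (h : ω.1 / 2 ≠ m) : Y.trm γ m ω = 0 := by
  unfold Sys.trm
  split
  · rfl
  · apply Y.blk_eq_zero <;> omega

theorem Sys.xv_eq_trm (γ : PF) (ω : Om) : Y.xv γ ω = Y.trm γ (ω.1 / 2) ω := rfl

theorem Sys.trm_none (γ : PF) (m : ℕ) (h : γ m = none) : Y.trm γ m = 0 := by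
  unfold Sys.trm; rw [h]

theorem Sys.trm_some (γ : PF) (m : ℕ) (j : ℕ × ℕ) (h : γ m = some j) :
    Y.trm γ m = Y.blk (2 * m) j.1 j.2 := by
  unfold Sys.trm; rw [h]

/-- `alpha` on blocks of the same index. -/
theorem Sys.alpha_blk (n p r p' r' : ℕ) (hr : r < Y.N n)
    (hp' : p' < Y.N (n + 1)) (hr' : r' < Y.N n) :
    Y.alpha n p r (Y.blk n p' r') = if p = p' ∧ r = r' then 1 else 0 := by
  rw [Y.alpha_apply]
  have hM := Y.M_pos' (n+1)
  have h1 : ∀ g ∈ range (Y.M (n + 1)), Y.sig n r g * Y.blk n p' r' (n + 1, p, g)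
      = if p = p' then Y.sig n r g * Y.sig n r' g else 0 := by
    intro g hg
    rw [Sys.blk_apply]
    unfold Sys.blkFun
    rw [mem_range] at hg
    simp only [hp', hr', and_self, if_true]
    have : ¬ (n + 1 = n ∧ p = r' ∧ g < Y.M n) := by omega
    rw [if_neg this]
    by_cases h : p = p'
    · simp [h, hg]
    · simp [h]
  rw [sum_congr rfl h1]
  by_cases h : p = p'
  · simp only [h, if_true, true_and]
    rw [Y.sig_orth n r r' hr hr']
    by_cases h2 : r = r'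
    · simp only [h2, if_true]; field_simp
    · simp [h2]
  · simp [h]

/-- `alpha^n` vanishes on the blocks of the other indices. -/
theorem Sys.alpha_blk_ne (n m p r p' r' : ℕ) (hr : r < Y.N n)
    (h : n ≠ m) : Y.alpha n p r (Y.blk m p' r') = 0 := by
  rw [Y.alpha_apply]
  have hM := Y.M_pos' (n+1)
  by_cases hm : m = n + 1
  · subst hm
    by_cases hv : p' < Y.N (n + 1 + 1) ∧ r' < Y.N (n + 1)
    · have h1 : ∀ g ∈ range (Y.M (n + 1)), Y.sig n r g * Y.blk (n + 1) p' r' (n + 1, p, g)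
          = if p = r' then Y.sig n r g * Y.tau (n + 1) p' g else 0 := by
        intro g hg
        rw [Sys.blk_apply]
        unfold Sys.blkFun
        rw [mem_range] at hg
        rw [if_pos hv]
        by_cases h : p = r'
        · simp [h, hg]
        · simp [h]
      rw [sum_congr rfl h1]
      by_cases h : p = r'
      · simp only [h, if_true]
        rw [Y.cross n r p' hr hv.1]; simp
      · simp [h]
    · have h1 : ∀ g ∈ range (Y.M (n + 1)), Y.sig n r g * Y.blk (n + 1) p' r' (n + 1, p, g)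
          = 0 := by
        intro g hg
        rw [Sys.blk_apply]
        unfold Sys.blkFun
        rw [if_neg hv, mul_zero]
      rw [sum_congr rfl h1]; simp
  · have h1 : ∀ g ∈ range (Y.M (n + 1)), Y.sig n r g * Y.blk m p' r' (n + 1, p, g) = 0 := by
      intro g hg
      rw [Y.blk_eq_zero m p' r' (n+1, p, g) (fun h => hm h.symm) (fun h' => h (by simpa using h')), mul_zero]
    rw [sum_congr rfl h1]; simp

/-- Every block is finitely supported. -/
theorem Sys.blk_finite (n p r : ℕ) : {ω : Om | Y.blk n p r ω ≠ 0}.Finite := by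
  have h : {ω : Om | Y.blk n p r ω ≠ 0} ⊆
      (({n, n + 1} : Finset ℕ) ×ˢ ({p, r} : Finset ℕ) ×ˢ
        (range (Y.M n + Y.M (n + 1))) : Finset (ℕ × ℕ × ℕ)) := by
    intro ω hω
    simp only [Set.mem_ofPred_eq, Sys.blk_apply] at hω
    unfold Sys.blkFun at hω
    simp only [coe_product, Set.mem_prod, mem_coe, mem_insert, mem_singleton, mem_range]
    split_ifs at hω with h1 h2 h3
    · refine ⟨Or.inl h2.1, Or.inr h2.2.1, by omega⟩
    · refine ⟨Or.inr h3.1, Or.inl h3.2.1, by omega⟩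
    · exact absurd rfl hω
    · exact absurd rfl hω
  exact Set.Finite.subset (Finset.finite_toSet _) h

/-- `Z ⊆ c_0(Om)`. -/
theorem Sys.Z_c0 (z : E) (hz : z ∈ Y.Z) (δ : ℝ) (hδ : 0 < δ) : {ω : Om | δ ≤ |z ω|}.Finite := by
  have hspan : ∀ y ∈ Submodule.span ℝ (Set.range (fun t : ℕ × ℕ × ℕ => Y.blk t.1 t.2.1 t.2.2)),
      {ω : Om | y ω ≠ 0}.Finite := by
    intro y hy
    induction hy using Submodule.span_induction with
    | mem x hx => obtain ⟨t, rfl⟩ := hx; exact Y.blk_finite _ _ _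
    | zero => simp
    | add x y _ _ hx hy =>
      refine (hx.union hy).subset ?_
      intro ω hω
      simp only [Set.mem_ofPred_eq, E.add_apply] at hω
      simp only [Set.mem_union, Set.mem_ofPred_eq]
      by_contra h
      push Not at h
      rw [h.1, h.2, add_zero] at hω
      exact hω rfl
    | smul c x _ hx =>
      refine hx.subset ?_
      intro ω hω
      simp only [Set.mem_ofPred_eq, E.smul_apply] at hω
      simp only [Set.mem_ofPred_eq]
      exact fun h => hω (by rw [h, mul_zero])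
  have hz' : z ∈ closure (Submodule.span ℝ
      (Set.range (fun t : ℕ × ℕ × ℕ => Y.blk t.1 t.2.1 t.2.2)) : Set E) := hz
  rw [Metric.mem_closure_iff] at hz'
  obtain ⟨y, hy, hd⟩ := hz' δ hδ
  refine (hspan y hy).subset ?_
  intro ω hω
  simp only [Set.mem_ofPred_eq] at hω ⊢
  intro h0
  have h1 : |(z - y) ω| ≤ ‖z - y‖ := E.abs_le_norm _ _
  rw [E.sub_apply, h0, sub_zero, ← dist_eq_norm] at h1
  linarith

/-- Finite version of `Z ⊆ c_0`: the values on high levels are small. -/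
theorem Sys.Z_small (z : E) (hz : z ∈ Y.Z) (δ : ℝ) (hδ : 0 < δ) :
    ∃ n0, ∀ ω : Om, n0 ≤ ω.1 → |z ω| < δ := by
  have h := Y.Z_c0 z hz δ hδ
  obtain ⟨B, hB⟩ := (h.image (fun ω : Om => ω.1)).bddAbove
  refine ⟨B + 1, fun ω hω => ?_⟩
  by_contra hc
  push Not at hc
  have : ω.1 ≤ B := hB ⟨ω, hc, rfl⟩
  omega

/-- Choosing signs and choices, one vector per even level: the norm stays `≤ C`. -/
theorem Sys.norm_sum_trm_le (γ : PF) (F : Finset ℕ) (c : ℕ → ℝ) (C : ℝ) (hC : 0 ≤ C)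
    (hc : ∀ m, |c m| ≤ C) : ‖∑ m ∈ F, c m • Y.trm γ m‖ ≤ C := by
  rw [E.norm_le hC]
  intro ω
  rw [E.sum_apply]
  have h2 : ∑ m ∈ F, (c m • Y.trm γ m) ω = if ω.1 / 2 ∈ F then
      c (ω.1 / 2) * Y.trm γ (ω.1 / 2) ω else 0 := by
    rw [← Finset.sum_ite_eq F (ω.1 / 2) (fun m => c m * Y.trm γ m ω)]
    refine Finset.sum_congr rfl fun m _ => ?_
    split_ifs with h
    · rfl
    · rw [E.smul_apply, Y.trm_eq_zero γ m ω h, mul_zero]
  rw [h2]
  split_ifs
  · rw [abs_mul]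
    have h3 : |Y.trm γ (ω.1 / 2) ω| ≤ 1 := Y.abs_xFun_le γ ω
    calc |c (ω.1/2)| * |Y.trm γ (ω.1 / 2) ω| ≤ C * 1 :=
          mul_le_mul (hc _) h3 (abs_nonneg _) hC
      _ = C := mul_one C
  · simpa using hC

end SLA
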