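import Pool.Agent.SLA.Stmts
import Pool.Agent.SLA.Basic

/-!
# MP_91c4ba_an : module ADB (helper94)
-/

set_option autoImplicit false

namespace SLA

variable (Y : Sys)

theorem pfB_self (s : Y.Br) (i : ℕ) : Y.pfB s (s.1 i).1 = some (s.1 i).2 := by
  have h : ∃ j, (s.1 j).1 = (s.1 i).1 := ⟨i, rfl⟩
  have h2 : h.choose = i := s.2.mono.injective h.choose_spec
  unfold Sys.pfB
  rw [dif_pos h, h2]

theorem pfB_ne_none (s : Y.Br) (m : ℕ) (h : Y.pfB s m ≠ none) : ∃ i, (s.1 i).1 = m := by
  by_contra hcon
  apply h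
  unfold Sys.pfB
  rw [dif_neg hcon]

theorem ADB_proof : Stmt_ADB := by
  intro Y
  refine ⟨⟨?_, ?_, ?_⟩, pfB_self Y, pfB_ne_none Y⟩
  · intro s
    have h1 : (Set.range (fun i => (s.1 i).1)).Infinite :=
      Set.infinite_range_of_injective s.2.mono.injective
    refine h1.mono ?_
    rintro _ ⟨i, rfl⟩
    simp only [Set.mem_ofPred_eq]
    rw [pfB_self]
    simp
  · intro s s' hne
    have hex : ∃ a, s.1 a ≠ s'.1 a := by
      by_contra hcon
      push Not at hcon
      exact hne (Subtype.ext (funext hcon))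
    obtain ⟨a, ha⟩ := hex
    refine ((Finset.range (a + 1)).finite_toSet.image (fun i => (s.1 i).1)).subset ?_
    rintro m ⟨h1, h2⟩
    obtain ⟨i, hi⟩ := pfB_ne_none Y s m h1
    obtain ⟨j, hj⟩ := pfB_ne_none Y s' m h2
    have e1 := s.2.hist i
    have e2 := s'.2.hist j
    rw [hi] at e1
    rw [hj] at e2
    have e3 : (List.range i).map s.1 = (List.range j).map s'.1 := e1.symm.trans e2
    have e4 : i = j := by
      have := congrArg List.length e3
      simpa using this
    subst e4
    refine ⟨i, ?_, hi⟩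
    simp only [Finset.coe_range, Set.mem_Iio]
    by_contra hcon
    apply ha
    have hai : a < i := by omega
    have e5 := List.map_inj_left.1 e3 a (List.mem_range.2 hai)
    exact e5
  · intro s m j h
    have h1 : Y.pfB s m ≠ none := by rw [h]; simp
    obtain ⟨i, hi⟩ := pfB_ne_none Y s m h1
    subst hi
    rw [pfB_self] at h
    have h2 : (s.1 i).2 = j := Option.some.inj h
    rw [← h2]
    exact s.2.valid i

end SLA
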