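import Pool.Agent.SLA.Stmts
import Pool.Agent.SLA.Basic

/-!
# MP_91c4ba_an : assembly (helper71)
-/

set_option autoImplicit false

namespace SLA

open Finset

/-- The trace functionals stay large once they are large at a late level. -/
theorem beta_large (hTrc : Stmt_Trc) (Y : Sys) (T : Y.Z →L[ℝ] Y.Z) (L : ℝ) (hL : ‖T‖ ≤ L)
    (n0 : ℕ) (h0 : 3 / 4 ≤ Y.beta n0 T)
    (hs : ∀ n, ∑ k ∈ range n, Y.eps (n0 + k) * L ≤ 1 / 4) (n : ℕ) (hn : n0 ≤ n) :
    1 / 2 ≤ Y.beta n T := by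
  have key : ∀ k, |Y.beta (n0 + k) T - Y.beta n0 T| ≤ ∑ j ∈ range k, Y.eps (n0 + j) * L := by
    intro k
    induction k with
    | zero => simp
    | succ k ih =>
      rw [sum_range_succ]
      have h1 := hTrc Y (n0 + k) T
      have he : 0 ≤ Y.eps (n0 + k) :=
        le_trans (by have := Y.N_pos' (n0 + k); positivity) (Y.invN (n0 + k))
      have h2 : ‖T‖ * Y.eps (n0 + k) ≤ Y.eps (n0 + k) * L := by
        rw [mul_comm]; exact mul_le_mul_of_nonneg_left hL he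
      have h3 : Y.beta (n0 + (k + 1)) T - Y.beta n0 T =
          (Y.beta (n0 + k + 1) T - Y.beta (n0 + k) T) + (Y.beta (n0 + k) T - Y.beta n0 T) := by
        rw [← add_assoc]; ring
      rw [h3]
      refine (abs_add_le _ _).trans ?_
      linarith
  obtain ⟨k, rfl⟩ := Nat.exists_eq_add_of_le hn
  have h1 := key k
  have h2 := hs k
  have h3 := (abs_le.1 (h1.trans h2)).1
  linarith

theorem main (hSys : Stmt_Sys) (hTrc : Stmt_Trc) (hQ : Stmt_Q) (hRet : Stmt_Ret) (hBmp : Stmt_Bmp)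
    (hADB : Stmt_ADB) (hNoOp : Stmt_NoOp) (hDiv : Stmt_Div) :
    ∃ (X : Type) (_ : NormedAddCommGroup X) (_ : NormedSpace ℝ X) (_ : CompleteSpace X)
      (Z : Type) (_ : NormedAddCommGroup Z) (_ : NormedSpace ℝ Z) (_ : CompleteSpace Z)
      (ι : Z →ₗᵢ[ℝ] X) (r : X → Z),
      (∃ b : X → ℝ, ContDiff ℝ ((⊤ : ℕ∞) : WithTop ℕ∞) b ∧
        (∃ L : NNReal, LipschitzWith L b) ∧ b ≠ 0 ∧ Bornology.IsBounded (Function.support b)) ∧
      (∃ K : NNReal, LipschitzWith K r) ∧ (∀ z, r (ι z) = z) ∧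
      ∀ (ε : ℝ) (g : X → Z), ContDiff ℝ 1 g → (∃ L : NNReal, LipschitzWith L g) →
        ¬ ∀ x, ‖r x - g x‖ ≤ ε := by
  obtain ⟨Y⟩ := hSys
  have hAD := (hADB Y).1
  set I := Y.Br
  set pf := Y.pfB
  obtain ⟨K, r, hr, hrz⟩ := hRet Y Y.Br Y.pfB hAD
  obtain ⟨q, q1, q2, q3, q4, q5, q6⟩ := hQ Y Y.Br Y.pfB hAD
  have hXc : CompleteSpace (Y.X Y.Br Y.pfB) :=
    (Submodule.isClosed_topologicalClosure _).completeSpace_coe
  have hZc : CompleteSpace Y.Z :=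
    (Submodule.isClosed_topologicalClosure _).completeSpace_coe
  let ι : Y.Z →ₗᵢ[ℝ] Y.X Y.Br Y.pfB :=
    { toLinearMap := (Y.incl Y.Br Y.pfB).toLinearMap
      norm_map' := fun z => rfl }
  refine ⟨Y.X Y.Br Y.pfB, inferInstance, inferInstance, hXc, Y.Z, inferInstance, inferInstance,
    hZc, ι, r, ?_, ⟨K, hr⟩, hrz, ?_⟩
  · refine hBmp (Y.X Y.Br Y.pfB) Y.Br Om q (fun ω => (ev ω).comp (Y.X Y.Br Y.pfB).subtypeL)
      q1 ?_ ?_ q5 ?_
    · intro w x; exact E.abs_le_norm (x : E) w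
    · intro x C hC h
      exact (E.norm_le hC).2 (fun w => h w)
    · intro x s δ hs hδ h
      exact q6 x s δ hs hδ h
  · rintro ε g hg ⟨L, hL⟩ happ
    -- choose n0
    have hsum : Summable (fun n => Y.eps n * (L : ℝ)) := Y.summable.mul_right _
    obtain ⟨n0, hn0⟩ : ∃ n0, ∀ n, ∑ k ∈ range n, Y.eps (n0 + k) * (L : ℝ) ≤ 1 / 4 := by
      have htend := hsum.tendsto_sum_tsum_nat
      have hc := htend.cauchySeq
      rw [Metric.cauchySeq_iff] at hc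
      obtain ⟨n0, hn0⟩ := hc (1 / 4) (by norm_num)
      refine ⟨n0, fun n => ?_⟩
      have h1 := hn0 (n0 + n) (by omega) n0 le_rfl
      rw [Real.dist_eq, sum_range_add_sub_sum_range] at h1
      exact (le_abs_self _).trans h1.le
    -- the finite index set of the blocks of level n0
    let J := Fin (Y.N (n0 + 1)) × Fin (Y.N n0)
    haveI : Nonempty (Fin (Y.N (n0 + 1))) := ⟨⟨0, Y.N_pos _⟩⟩
    haveI : Nonempty (Fin (Y.N n0)) := ⟨⟨0, Y.N_pos _⟩⟩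
    obtain ⟨z, hz⟩ := hDiv (Y.X Y.Br Y.pfB) Y.Z (Y.incl Y.Br Y.pfB) g ε J
      (fun j => Y.blkZ n0 j.1 j.2)
      (fun j => (Y.alpha n0 j.1 j.2).comp Y.Z.subtypeL) hg
      (fun z => by
        have := happ (Y.incl Y.Br Y.pfB z)
        rw [hrz, norm_sub_rev] at this
        exact this)
      (fun j z => Y.abs_alpha_le_norm n0 j.1 j.2 (z : E))
      (fun j => by
        have := Y.alpha_blk n0 j.1 j.2 j.1 j.2 j.2.2 j.1.2 j.2.2
        simpa using this)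
      (fun i j hij => by
        have := Y.alpha_blk n0 i.1 i.2 j.1 j.2 i.2.2 j.1.2 j.2.2
        rw [if_neg] at this
        · simpa using this
        · rintro ⟨h1, h2⟩
          exact hij (Prod.ext (Fin.ext h1) (Fin.ext h2)))
    set S : Y.X Y.Br Y.pfB →L[ℝ] Y.Z := fderiv ℝ g (Y.incl Y.Br Y.pfB z) with hS
    set T : Y.Z →L[ℝ] Y.Z := S.comp (Y.incl Y.Br Y.pfB) with hT
    have hSn : ‖S‖ ≤ L := norm_fderiv_le_of_lipschitz ℝ hL
    have hTn : ‖T‖ ≤ L := by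
      refine ContinuousLinearMap.opNorm_le_bound _ L.2 (fun y => ?_)
      have h1 : ‖S (Y.incl Y.Br Y.pfB y)‖ ≤ ‖S‖ * ‖Y.incl Y.Br Y.pfB y‖ := S.le_opNorm _
      have h2 : ‖Y.incl Y.Br Y.pfB y‖ = ‖y‖ := rfl
      rw [h2] at h1
      exact h1.trans (mul_le_mul_of_nonneg_right hSn (norm_nonneg _))
    have hb : 3 / 4 ≤ Y.beta n0 T := by
      unfold Sys.beta
      have hN1 := Y.N_pos' (n0 + 1)
      have hN0 := Y.N_pos' n0
      rw [le_div_iff₀ (by positivity)]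
      have hcard : (Fintype.card J : ℝ) = (Y.N (n0 + 1) : ℝ) * (Y.N n0 : ℝ) := by
        simp [J]
      rw [hcard] at hz
      refine hz.trans (le_of_eq ?_)
      rw [Fintype.sum_prod_type, ← Fin.sum_univ_eq_sum_range
        (fun p => ∑ r ∈ range (Y.N n0), Y.alpha n0 p r (T (Y.blkZ n0 p r) : E))]
      refine sum_congr rfl fun p _ => ?_
      rw [← Fin.sum_univ_eq_sum_range
        (fun r => Y.alpha n0 p r (T (Y.blkZ n0 p r) : E))]
      rfl
    exact hNoOp Y S n0 (fun m hm =>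
      beta_large hTrc Y T L hTn n0 hb hn0 (2 * m) (by omega))

/-- The frozen negation. -/
theorem S05404_of (hSys : Stmt_Sys) (hTrc : Stmt_Trc) (hQ : Stmt_Q) (hRet : Stmt_Ret)
    (hBmp : Stmt_Bmp) (hADB : Stmt_ADB) (hNoOp : Stmt_NoOp) (hDiv : Stmt_Div) :
    ¬ (∀ (k : ℕ∞) (X : Type) [NormedAddCommGroup X] [NormedSpace ℝ X] [CompleteSpace X],
      (∃ b : X → ℝ, ContDiff ℝ ((k : ℕ∞) : WithTop ℕ∞) b ∧ (∃ L : NNReal, LipschitzWith L b) ∧
          b ≠ 0 ∧ Bornology.IsBounded (Function.support b)) →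
      ∀ (Y : Type) [NormedAddCommGroup Y] [NormedSpace ℝ Y] [CompleteSpace Y] (f : X → Y),
        (∃ K : NNReal, LipschitzWith K f) →
        ∀ ε : ℝ, 0 < ε →
          ∃ g : X → Y, ContDiff ℝ ((k : ℕ∞) : WithTop ℕ∞) g ∧
            (∃ L : NNReal, LipschitzWith L g) ∧ ∀ x, ‖f x - g x‖ ≤ ε) := by
  intro h
  obtain ⟨X, i1, i2, i3, Z, j1, j2, j3, ι, r, ⟨b, hb1, hb2, hb3, hb4⟩, hK, hrz, hno⟩ :=
    main hSys hTrc hQ hRet hBmp hADB hNoOp hDiv
  obtain ⟨g, hg, hgL, hgr⟩ := h ⊤ X ⟨b, hb1, hb2, hb3, hb4⟩ Z r hK 1 one_pos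
  exact hno 1 g (hg.of_le (by exact_mod_cast le_top)) hgL hgr

end SLA
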