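import Pool.Agent.SLA.Stmts

/-!
# MP_91c4ba_an : module Bmp, the smooth Lipschitz bump (helper18)
-/

set_option autoImplicit false

namespace SLA

namespace BmpAux

open MeasureTheory Set

/-- The factor: `1` for `|y| ≤ t`, `0` for `|y| ≥ 1 + t` (for `t ≥ 0`). -/
noncomputable def K (t y : ℝ) : ℝ :=
  Real.smoothTransition (1 + t - y) * Real.smoothTransition (1 + t + y)

theorem K_nonneg (t y : ℝ) : 0 ≤ K t y :=
  mul_nonneg (Real.smoothTransition.nonneg _) (Real.smoothTransition.nonneg _)

theorem K_le_one (t y : ℝ) : K t y ≤ 1 :=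
  mul_le_one₀ (Real.smoothTransition.le_one _) (Real.smoothTransition.nonneg _)
    (Real.smoothTransition.le_one _)

theorem K_one {t y : ℝ} (h : |y| ≤ t) : K t y = 1 := by
  unfold K
  rw [abs_le] at h
  rw [Real.smoothTransition.one_of_one_le (by linarith),
    Real.smoothTransition.one_of_one_le (by linarith), one_mul]

theorem K_ne {t y : ℝ} (h : K t y ≠ 0) : |y| < 1 + t := by
  unfold K at h
  rw [abs_lt]
  constructor
  · by_contra hc
    push Not at hc
    exact h (by rw [Real.smoothTransition.zero_of_nonpos (x := 1 + t + y) (by linarith), mul_zero])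
  · by_contra hc
    push Not at hc
    exact h (by rw [Real.smoothTransition.zero_of_nonpos (x := 1 + t - y) (by linarith), zero_mul])

theorem K_mono {t y y' δ : ℝ} (h : |y' - y| ≤ δ) : K t y' ≤ K (t + δ) y := by
  unfold K
  rw [abs_le] at h
  exact mul_le_mul (Real.smoothTransition.monotone (by linarith))
    (Real.smoothTransition.monotone (by linarith)) (Real.smoothTransition.nonneg _)
    (Real.smoothTransition.nonneg _)

theorem K_contDiff : ContDiff ℝ ((⊤ : ℕ∞) : WithTop ℕ∞) (fun p : ℝ × ℝ => K p.1 p.2) := by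
  unfold K
  refine ContDiff.mul ?_ ?_
  · exact Real.smoothTransition.contDiff.comp
      ((contDiff_const.add contDiff_fst).sub contDiff_snd)
  · exact Real.smoothTransition.contDiff.comp
      ((contDiff_const.add contDiff_fst).add contDiff_snd)

section

variable {X : Type} [NormedAddCommGroup X] [NormedSpace ℝ X] {I W : Type}
  (q : I → X →L[ℝ] ℝ) (e : W → X →L[ℝ] ℝ)

/-- The finite products. -/
noncomputable def P (F : Finset I) (G : Finset W) (t : ℝ) (x : X) : ℝ :=
  (∏ i ∈ F, K t (q i x)) * ∏ w ∈ G, K (t + 3) (e w x)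

theorem P_nonneg (F : Finset I) (G : Finset W) (t : ℝ) (x : X) : 0 ≤ P q e F G t x :=
  mul_nonneg (Finset.prod_nonneg fun _ _ => K_nonneg _ _)
    (Finset.prod_nonneg fun _ _ => K_nonneg _ _)

theorem P_le_one (F : Finset I) (G : Finset W) (t : ℝ) (x : X) : P q e F G t x ≤ 1 :=
  mul_le_one₀ (Finset.prod_le_one (fun _ _ => K_nonneg _ _) fun _ _ => K_le_one _ _)
    (Finset.prod_nonneg fun _ _ => K_nonneg _ _)
    (Finset.prod_le_one (fun _ _ => K_nonneg _ _) fun _ _ => K_le_one _ _)

theorem P_mono (hq : ∀ i x, |q i x| ≤ ‖x‖) (he : ∀ w x, |e w x| ≤ ‖x‖)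
    (F : Finset I) (G : Finset W) (t : ℝ) (x y : X) :
    P q e F G t x ≤ P q e F G (t + ‖x - y‖) y := by
  unfold P
  refine mul_le_mul (Finset.prod_le_prod (fun _ _ => K_nonneg _ _) fun i _ => ?_)
    (Finset.prod_le_prod (fun _ _ => K_nonneg _ _) fun w _ => ?_)
    (Finset.prod_nonneg fun _ _ => K_nonneg _ _) (Finset.prod_nonneg fun _ _ => K_nonneg _ _)
  · apply K_mono
    rw [← map_sub]
    exact hq i _
  · rw [show t + ‖x - y‖ + 3 = t + 3 + ‖x - y‖ by ring]
    apply K_mono
    rw [← map_sub]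
    exact he w _

theorem P_contDiff (F : Finset I) (G : Finset W) :
    ContDiff ℝ ((⊤ : ℕ∞) : WithTop ℕ∞) (fun p : ℝ × X => P q e F G p.1 p.2) := by
  unfold P
  refine ContDiff.mul ?_ ?_
  · refine contDiff_prod fun i _ => ?_
    exact K_contDiff.comp (contDiff_fst.prodMk ((q i).contDiff.comp contDiff_snd))
  · refine contDiff_prod fun w _ => ?_
    exact K_contDiff.comp ((contDiff_fst.add contDiff_const).prodMk
      ((e w).contDiff.comp contDiff_snd))

/-- The full product. -/
noncomputable def H (t : ℝ) (x : X) : ℝ := ⨅ p : Finset I × Finset W, P q e p.1 p.2 t x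

theorem H_bdd (t : ℝ) (x : X) :
    BddBelow (range fun p : Finset I × Finset W => P q e p.1 p.2 t x) :=
  ⟨0, by rintro _ ⟨p, rfl⟩; exact P_nonneg q e _ _ _ _⟩

theorem H_le (F : Finset I) (G : Finset W) (t : ℝ) (x : X) : H q e t x ≤ P q e F G t x :=
  ciInf_le (H_bdd q e t x) (F, G)

theorem H_nonneg (t : ℝ) (x : X) : 0 ≤ H q e t x := le_ciInf fun _ => P_nonneg q e _ _ _ _

theorem H_le_one (t : ℝ) (x : X) : H q e t x ≤ 1 :=
  (H_le q e ∅ ∅ t x).trans (P_le_one q e _ _ _ _)

theorem H_mono (hq : ∀ i x, |q i x| ≤ ‖x‖) (he : ∀ w x, |e w x| ≤ ‖x‖) (t : ℝ) (x y : X) :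
    H q e t x ≤ H q e (t + ‖x - y‖) y :=
  le_ciInf fun _ => (H_le q e _ _ _ _).trans (P_mono q e hq he _ _ _ _ _)

theorem prod_ge {J : Type} (f : J → ℝ) (F G : Finset J) (h0 : ∀ j, 0 ≤ f j) (h1 : ∀ j, f j ≤ 1)
    (h : ∀ j, j ∉ F → f j = 1) : ∏ j ∈ F, f j ≤ ∏ j ∈ G, f j := by
  classical
  have e1 : ∏ j ∈ G, f j = ∏ j ∈ G ∩ F, f j := by
    symm
    apply Finset.prod_subset Finset.inter_subset_left
    intro j hj hj'
    apply h
    intro hF
    exact hj' (Finset.mem_inter.mpr ⟨hj, hF⟩)
  rw [e1, ← Finset.prod_sdiff (Finset.inter_subset_right : G ∩ F ⊆ F)]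
  calc (∏ j ∈ F \ (G ∩ F), f j) * ∏ j ∈ G ∩ F, f j ≤ 1 * ∏ j ∈ G ∩ F, f j :=
        mul_le_mul_of_nonneg_right (Finset.prod_le_one (fun _ _ => h0 _) fun _ _ => h1 _)
          (Finset.prod_nonneg fun _ _ => h0 _)
    _ = _ := one_mul _

/-- Local representation by a finite product. -/
theorem H_local (hq : ∀ i x, |q i x| ≤ ‖x‖) (he : ∀ w x, |e w x| ≤ ‖x‖)
    (hq0 : ∀ (x : X) (δ : ℝ), 0 < δ → {i | δ ≤ |q i x|}.Finite)
    (he0 : ∀ (x : X) (s δ : ℝ), 0 ≤ s → 0 < δ → (∀ i, |q i x| ≤ s) →
      {w | s + δ ≤ |e w x|}.Finite) (x₀ : X) :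
    ∃ (F : Finset I) (G : Finset W), ∀ x, ‖x - x₀‖ < 1 / 8 → ∀ t : ℝ, 1 / 2 ≤ t →
      H q e t x = P q e F G t x := by
  classical
  set s : ℝ := ⨆ i, |q i x₀| with hs
  have hs0 : 0 ≤ s := Real.iSup_nonneg fun i => abs_nonneg _
  have hsb : BddAbove (range fun i => |q i x₀|) := ⟨‖x₀‖, by rintro _ ⟨i, rfl⟩; exact hq i x₀⟩
  have hqs : ∀ i, |q i x₀| ≤ s := fun i => le_ciSup hsb i
  have hF := hq0 x₀ (1 / 4) (by norm_num)
  have hG := he0 x₀ s (1 / 4) hs0 (by norm_num) hqs
  refine ⟨hF.toFinset, hG.toFinset, fun x hx t ht => le_antisymm (H_le q e _ _ _ _) ?_⟩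
  have hqx : ∀ i, |q i x - q i x₀| < 1 / 8 := fun i => by
    rw [← map_sub]; exact (hq i _).trans_lt hx
  have hex : ∀ w, |e w x - e w x₀| < 1 / 8 := fun w => by
    rw [← map_sub]; exact (he w _).trans_lt hx
  have hI : ∀ i, i ∉ hF.toFinset → K t (q i x) = 1 := by
    intro i hi
    simp only [Finite.mem_toFinset, mem_ofPred_eq, not_le] at hi
    apply K_one
    have h1 := abs_sub_abs_le_abs_sub (q i x) (q i x₀)
    have h2 := hqx i
    linarith
  by_cases h0 : ∏ i ∈ hF.toFinset, K t (q i x) = 0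
  · have : P q e hF.toFinset hG.toFinset t x = 0 := by unfold P; rw [h0, zero_mul]
    rw [this]
    exact H_nonneg q e t x
  have hall : ∀ i, |q i x| ≤ 1 + t := by
    intro i
    by_cases hi : i ∈ hF.toFinset
    · exact (K_ne (Finset.prod_ne_zero_iff.mp h0 i hi)).le
    · simp only [Finite.mem_toFinset, mem_ofPred_eq, not_le] at hi
      have h1 := abs_sub_abs_le_abs_sub (q i x) (q i x₀)
      have h2 := hqx i
      linarith
  have hst : s ≤ 1 + t + 1 / 8 := by
    refine Real.iSup_le (fun i => ?_) (by linarith)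
    have h1 := abs_sub_abs_le_abs_sub (q i x₀) (q i x)
    have h2 := hqx i
    rw [abs_sub_comm] at h2
    have h3 := hall i
    linarith
  have hW : ∀ w, w ∉ hG.toFinset → K (t + 3) (e w x) = 1 := by
    intro w hw
    simp only [Finite.mem_toFinset, mem_ofPred_eq, not_le] at hw
    apply K_one
    have h1 := abs_sub_abs_le_abs_sub (e w x) (e w x₀)
    have h2 := hex w
    linarith
  refine le_ciInf fun p => ?_
  unfold P
  exact mul_le_mul
    (prod_ge (fun i => K t (q i x)) _ _ (fun _ => K_nonneg _ _) (fun _ => K_le_one _ _) hI)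
    (prod_ge (fun w => K (t + 3) (e w x)) _ _ (fun _ => K_nonneg _ _) (fun _ => K_le_one _ _) hW)
    (Finset.prod_nonneg fun _ _ => K_nonneg _ _) (Finset.prod_nonneg fun _ _ => K_nonneg _ _)

end

/-- Smooth dependence of an integral on a parameter. -/
theorem contDiff_param {X : Type} [NormedAddCommGroup X] [NormedSpace ℝ X] (f : ℝ → X → ℝ)
    (hf : ContDiff ℝ ((⊤ : ℕ∞) : WithTop ℕ∞) (fun p : ℝ × X => f p.1 p.2)) :
    ContDiff ℝ ((⊤ : ℕ∞) : WithTop ℕ∞) (fun x => ∫ t in (1 : ℝ)..2, f t x) := by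
  let χ : ContDiffBump (3 / 2 : ℝ) := ⟨1, 2, by norm_num, by norm_num⟩
  have h := contDiffOn_convolution_right_with_param_comp (𝕜 := ℝ) (μ := (volume : Measure ℝ))
    (n := (⊤ : ℕ∞)) (ContinuousLinearMap.mul ℝ ℝ) (s := (univ : Set X)) (v := fun _ => (0 : ℝ))
    contDiffOn_const (f := (Ioc (1 : ℝ) 2).indicator (fun _ => (1 : ℝ)))
    (g := fun x s => χ (-s) * f (-s) x) (k := Metric.closedBall (-(3 / 2) : ℝ) 2) isOpen_univ
    (isCompact_closedBall _ _) ?_ ?_ ?_
  · rw [contDiffOn_univ] at h
    convert h using 1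
    funext x
    rw [intervalIntegral.integral_of_le (by norm_num)]
    unfold convolution
    rw [← integral_indicator measurableSet_Ioc]
    congr 1
    funext t
    by_cases ht : t ∈ Ioc (1 : ℝ) 2
    · simp only [indicator_of_mem ht, ContinuousLinearMap.mul_apply', one_mul, zero_sub, neg_neg]
      have : χ t = 1 := by
        apply χ.one_of_mem_closedBall
        rw [Metric.mem_closedBall, Real.dist_eq, abs_le]
        show -(1 : ℝ) ≤ _ ∧ _ ≤ (1 : ℝ)
        constructor <;> linarith [ht.1, ht.2]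
      rw [this, one_mul]
    · simp only [indicator_of_notMem ht, ContinuousLinearMap.mul_apply', zero_mul]
  · intro x s _ hs
    have : χ (-s) = 0 := by
      apply χ.zero_of_le_dist
      rw [Metric.mem_closedBall, not_le] at hs
      rw [Real.dist_eq] at hs ⊢
      show (2 : ℝ) ≤ _
      have e1 : |-s - 3 / 2| = |s - -(3 / 2)| := by
        rw [← abs_neg]; congr 1; ring
      rw [e1]
      exact hs.le
    rw [this, zero_mul]
  · exact ((locallyIntegrable_const (1 : ℝ)).indicator measurableSet_Ioc)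
  · apply ContDiff.contDiffOn
    refine ContDiff.mul ?_ ?_
    · exact χ.contDiff.comp contDiff_snd.neg
    · exact hf.comp (contDiff_snd.neg.prodMk contDiff_fst)

end BmpAux

open BmpAux MeasureTheory Set in
/-- Module Bmp. -/
theorem Bmp_proof : Stmt_Bmp := by
  intro X _ _ I W q e hq he hn hq0 he0
  have hloc := H_local q e hq he hq0 he0
  -- continuity in `t`
  have hcont : ∀ x, ContinuousOn (fun t => H q e t x) (Ici (1 / 2 : ℝ)) := by
    intro x
    obtain ⟨F, G, hFG⟩ := hloc x
    have h1 : Continuous (fun t : ℝ => P q e F G t x) :=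
      (P_contDiff q e F G).continuous.comp (continuous_id.prodMk continuous_const)
    refine h1.continuousOn.congr fun t ht => ?_
    exact hFG x (by simp) t ht
  have hint : ∀ (x : X) (a b : ℝ), 1 / 2 ≤ a → 1 / 2 ≤ b →
      IntervalIntegrable (fun t => H q e t x) volume a b := by
    intro x a b ha hb
    apply ContinuousOn.intervalIntegrable
    refine (hcont x).mono ?_
    intro t ht
    rw [mem_uIcc] at ht
    rcases ht with ht | ht
    · exact ha.trans ht.1
    · exact hb.trans ht.1
  refine ⟨fun x => ∫ t in (1 : ℝ)..2, H q e t x, ?_, ?_, ?_, ?_⟩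
  · rw [contDiff_iff_contDiffAt]
    intro x₀
    obtain ⟨F, G, hFG⟩ := hloc x₀
    have h1 := contDiff_param _ (P_contDiff q e F G)
    refine h1.contDiffAt.congr_of_eventuallyEq ?_
    filter_upwards [Metric.ball_mem_nhds x₀ (by norm_num : (0 : ℝ) < 1 / 8)] with x hx
    rw [Metric.mem_ball, dist_eq_norm] at hx
    apply intervalIntegral.integral_congr
    intro t ht
    rw [uIcc_of_le (by norm_num)] at ht
    exact hFG x hx t (by linarith [ht.1])
  · have key : ∀ x y : X, (∫ t in (1 : ℝ)..2, H q e t x) - ∫ t in (1 : ℝ)..2, H q e t y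
        ≤ ‖x - y‖ := by
      intro x y
      set δ := ‖x - y‖ with hδ
      have hδ0 : 0 ≤ δ := norm_nonneg _
      have h1 : ∫ t in (1 : ℝ)..2, H q e t x ≤ ∫ t in (1 : ℝ)..2, H q e (t + δ) y := by
        apply intervalIntegral.integral_mono_on (by norm_num) (hint x 1 2 (by norm_num)
          (by norm_num))
        · have h2 := (hint y (1 + δ) (2 + δ) (by linarith) (by linarith)).comp_add_right δ
          simpa using h2
        · intro t _
          exact H_mono q e hq he t x y
      rw [intervalIntegral.integral_comp_add_right (fun t => H q e t y) δ] at h1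
      have h3 : (∫ t in (1 : ℝ)..(1 + δ), H q e t y) + (∫ t in (1 + δ)..(2 + δ), H q e t y)
          = ∫ t in (1 : ℝ)..(2 + δ), H q e t y :=
        intervalIntegral.integral_add_adjacent_intervals
          (hint y _ _ (by norm_num) (by linarith)) (hint y _ _ (by linarith) (by linarith))
      have h4 : (∫ t in (1 : ℝ)..2, H q e t y) + (∫ t in (2 : ℝ)..(2 + δ), H q e t y)
          = ∫ t in (1 : ℝ)..(2 + δ), H q e t y :=
        intervalIntegral.integral_add_adjacent_intervals
          (hint y _ _ (by norm_num) (by norm_num)) (hint y _ _ (by norm_num) (by linarith))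
      have h5 : 0 ≤ ∫ t in (1 : ℝ)..(1 + δ), H q e t y :=
        intervalIntegral.integral_nonneg (by linarith) fun t _ => H_nonneg q e t y
      have h6 : ∫ t in (2 : ℝ)..(2 + δ), H q e t y ≤ ∫ _ in (2 : ℝ)..(2 + δ), (1 : ℝ) :=
        intervalIntegral.integral_mono_on (by linarith)
          (hint y _ _ (by norm_num) (by linarith)) intervalIntegrable_const
          fun t _ => H_le_one q e t y
      rw [intervalIntegral.integral_const, smul_eq_mul, mul_one] at h6
      linarith
    refine ⟨1, ?_⟩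
    apply LipschitzWith.of_dist_le_mul
    intro x y
    rw [NNReal.coe_one, one_mul, Real.dist_eq, dist_eq_norm, abs_le]
    have h1 := key x y
    have h2 := key y x
    rw [norm_sub_rev] at h2
    constructor <;> linarith
  · intro h
    have h0 := congrFun h 0
    have h1 : ∀ t ∈ uIcc (1 : ℝ) 2, H q e t (0 : X) = 1 := by
      intro t ht
      rw [uIcc_of_le (by norm_num)] at ht
      apply le_antisymm (H_le_one q e t 0)
      refine le_ciInf fun p => ?_
      have e1 : P q e p.1 p.2 t (0 : X) = 1 := by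
        unfold P
        rw [Finset.prod_eq_one, Finset.prod_eq_one, one_mul]
        · intro w _
          rw [map_zero]
          exact K_one (by rw [abs_zero]; linarith [ht.1])
        · intro i _
          rw [map_zero]
          exact K_one (by rw [abs_zero]; linarith [ht.1])
      rw [e1]
    have h2 : ∫ t in (1 : ℝ)..2, H q e t (0 : X) = ∫ _ in (1 : ℝ)..2, (1 : ℝ) :=
      intervalIntegral.integral_congr h1
    have h3 : ∫ t in (1 : ℝ)..2, H q e t (0 : X) = 0 := h0
    rw [h2, intervalIntegral.integral_const, smul_eq_mul, mul_one] at h3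
    norm_num at h3
  · apply (Metric.isBounded_closedBall (x := (0 : X)) (r := 6)).subset
    intro x hx
    rw [Function.mem_support] at hx
    rw [mem_closedBall_zero_iff]
    have h1 : ∃ t ∈ uIcc (1 : ℝ) 2, H q e t x ≠ 0 := by
      by_contra hc
      push Not at hc
      apply hx
      rw [intervalIntegral.integral_congr (g := fun _ => (0 : ℝ)) hc]
      simp
    obtain ⟨t, ht, hH⟩ := h1
    rw [uIcc_of_le (by norm_num)] at ht
    apply hn x 6 (by norm_num)
    intro w
    have h2 : P q e ∅ {w} t x ≠ 0 := by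
      intro h
      apply hH
      exact le_antisymm (h ▸ H_le q e ∅ {w} t x) (H_nonneg q e t x)
    unfold P at h2
    rw [Finset.prod_empty, one_mul, Finset.prod_singleton] at h2
    have h3 := K_ne h2
    linarith [ht.2]

end SLA
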