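import Pool.Agent.SLA.Stmts
import Pool.Agent.SLA.Basic

/-!
# MP_91c4ba_an : module Brn (helper71)
-/

set_option autoImplicit false

namespace SLA

open Finset

/-- every list of triples has arbitrarily large codes -/
theorem hist_surj (l : List (ℕ × ℕ × ℕ)) (B : ℕ) : ∃ m, B ≤ m ∧ hist m = l := by
  refine ⟨Nat.pair (Encodable.encode l) B, Nat.right_le_pair _ _, ?_⟩
  unfold hist
  rw [Nat.unpair_pair]
  exact Denumerable.ofNat_encode l

theorem exists_good (Y : Sys) (T : Y.Z →L[ℝ] Y.Z) (m : ℕ) (h : 1 / 2 ≤ Y.beta (2 * m) T) :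
    ∃ p r, p < Y.N (2 * m + 1) ∧ r < Y.N (2 * m) ∧
      1 / 2 ≤ Y.alpha (2 * m) p r (T (Y.blkZ (2 * m) p r) : E) := by
  by_contra hc
  push Not at hc
  have hN1 := Y.N_pos' (2 * m + 1)
  have hN0 := Y.N_pos' (2 * m)
  have h1 : ∑ p ∈ range (Y.N (2 * m + 1)), ∑ r ∈ range (Y.N (2 * m)),
      Y.alpha (2 * m) p r (T (Y.blkZ (2 * m) p r) : E) <
      ∑ p ∈ range (Y.N (2 * m + 1)), ∑ r ∈ range (Y.N (2 * m)), (1 / 2 : ℝ) := by
    refine sum_lt_sum_of_nonempty ⟨0, mem_range.2 (Y.N_pos _)⟩ fun p hp => ?_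
    refine sum_lt_sum_of_nonempty ⟨0, mem_range.2 (Y.N_pos _)⟩ fun r hr => ?_
    exact hc p r (mem_range.1 hp) (mem_range.1 hr)
  simp only [sum_const, card_range, nsmul_eq_mul] at h1
  unfold Sys.beta at h
  rw [le_div_iff₀ (by positivity)] at h
  linarith

/-- rows: a functional is small on all blocks of high even index -/
theorem row_small (Y : Sys) (lam : Y.Z →L[ℝ] ℝ) (δ : ℝ) (hδ : 0 < δ) :
    ∃ B, ∀ m, B ≤ m → ∀ p r, |lam (Y.blkZ (2 * m) p r)| ≤ δ := by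
  by_contra hc
  push Not at hc
  -- the set of bad levels is infinite
  have hinf : {m : ℕ | ∃ p r, δ < |lam (Y.blkZ (2 * m) p r)|}.Infinite := by
    refine Set.infinite_of_not_bddAbove ?_
    rintro ⟨B, hB⟩
    obtain ⟨m, hm, p, r, h⟩ := hc (B + 1)
    have := hB ⟨p, r, h⟩
    omega
  obtain ⟨K, hK⟩ := exists_nat_gt (‖lam‖ / δ)
  obtain ⟨F, hF, hFc⟩ := hinf.exists_subset_card_eq K
  classical
  choose! P R hPR using fun (m : ℕ) (hm : ∃ p r, δ < |lam (Y.blkZ (2 * m) p r)|) => hm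
  let γ : PF := fun m => some (P m, R m)
  have hγ : ∀ m, Y.trmZ γ m = Y.blkZ (2 * m) (P m) (R m) := fun m => rfl
  let c : ℕ → ℝ := fun m => SignType.sign (lam (Y.trmZ γ m))
  have hc1 : ∀ m, |c m| ≤ 1 := by
    intro m
    simp only [c]
    rcases lt_trichotomy (lam (Y.trmZ γ m)) 0 with h | h | h
    · simp [sign_neg h]
    · simp [h]
    · simp [sign_pos h]
  have h1 := Y.norm_sum_trm_le γ F c 1 zero_le_one hc1
  have h2 : lam (∑ m ∈ F, c m • Y.trmZ γ m) = ∑ m ∈ F, |lam (Y.trmZ γ m)| := by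
    rw [map_sum]
    refine sum_congr rfl fun m _ => ?_
    rw [map_smul, smul_eq_mul]
    exact sign_mul_self _
  have h3 : ‖∑ m ∈ F, c m • Y.trmZ γ m‖ ≤ 1 := by
    have h0 : ((∑ m ∈ F, c m • Y.trmZ γ m : Y.Z) : E) = ∑ m ∈ F, c m • Y.trm γ m := by
      rw [Submodule.coe_sum]
      rfl
    change ‖((∑ m ∈ F, c m • Y.trmZ γ m : Y.Z) : E)‖ ≤ 1
    rw [h0]; exact h1
  have h4 : (K : ℝ) * δ ≤ ∑ m ∈ F, |lam (Y.trmZ γ m)| := by
    rw [← hFc, ← nsmul_eq_mul]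
    refine card_nsmul_le_sum _ _ _ fun m hm => ?_
    rw [hγ]
    exact (hPR m (hF hm)).le
  have h5 : ∑ m ∈ F, |lam (Y.trmZ γ m)| ≤ ‖lam‖ := by
    rw [← h2]
    calc lam (∑ m ∈ F, c m • Y.trmZ γ m) ≤ ‖lam (∑ m ∈ F, c m • Y.trmZ γ m)‖ := le_abs_self _
      _ ≤ ‖lam‖ * ‖∑ m ∈ F, c m • Y.trmZ γ m‖ := lam.le_opNorm _
      _ ≤ ‖lam‖ * 1 := mul_le_mul_of_nonneg_left h3 (ContinuousLinearMap.opNorm_nonneg _)
      _ = ‖lam‖ := mul_one _
  rw [div_lt_iff₀ hδ] at hK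
  linarith

/-- columns: the coefficients of an element of `Z` on high blocks are small -/
theorem col_small (Y : Sys) (z : Y.Z) (δ : ℝ) (hδ : 0 < δ) :
    ∃ B, ∀ m, B ≤ m → ∀ p r, |Y.alpha (2 * m) p r (z : E)| ≤ δ := by
  obtain ⟨n0, hn0⟩ := Y.Z_small (z : E) z.2 δ hδ
  refine ⟨n0, fun m hm p r => ?_⟩
  exact Y.abs_alpha_le _ _ _ _ _ (fun g _ => (hn0 _ (by simp only; omega)).le)

theorem Brn_proof : Stmt_Brn := by
  intro Y T m0 h ss
  -- abbreviation for the matrix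
  let A : ℕ × ℕ × ℕ → ℕ × ℕ × ℕ → ℝ := fun t u =>
    Y.alpha (2 * t.1) t.2.1 t.2.2 (T (Y.blkZ (2 * u.1) u.2.1 u.2.2) : E)
  have hnext : ∀ l : List (ℕ × ℕ × ℕ), ∃ t : ℕ × ℕ × ℕ, hist t.1 = l ∧ (∀ u ∈ l, u.1 < t.1) ∧
      (ss l.length l.length).1 < t.1 ∧
      (t.2.1 < Y.N (2 * t.1 + 1) ∧ t.2.2 < Y.N (2 * t.1)) ∧ 1 / 2 ≤ A t t ∧
      ∀ u ∈ l, |A u t| ≤ 1 / 16 * (1 / 2) ^ l.length ∧ |A t u| ≤ 1 / 16 * (1 / 2) ^ l.length := by
    intro l
    have hδ : (0 : ℝ) < 1 / 16 * (1 / 2) ^ l.length := by positivity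
    have hE : ∀ᶠ m in Filter.atTop, ∀ u ∈ {u | u ∈ l}, (∀ p r,
        |A u (m, p, r)| ≤ 1 / 16 * (1 / 2) ^ l.length ∧
        |A (m, p, r) u| ≤ 1 / 16 * (1 / 2) ^ l.length) ∧ u.1 < m := by
      rw [Filter.eventually_all_finite l.finite_toSet]
      intro u _
      obtain ⟨B1, hB1⟩ := row_small Y
        (((Y.alpha (2 * u.1) u.2.1 u.2.2).comp Y.Z.subtypeL).comp T) _ hδ
      obtain ⟨B2, hB2⟩ := col_small Y (T (Y.blkZ (2 * u.1) u.2.1 u.2.2)) _ hδ
      filter_upwards [Filter.eventually_ge_atTop B1, Filter.eventually_ge_atTop B2,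
        Filter.eventually_gt_atTop u.1] with m hm1 hm2 hm3
      exact ⟨fun p r => ⟨hB1 m hm1 p r, hB2 m hm2 p r⟩, hm3⟩
    obtain ⟨B, hB⟩ := Filter.eventually_atTop.1 hE
    obtain ⟨m, hm, hml⟩ := hist_surj l (max B (max m0 ((ss l.length l.length).1 + 1)))
    have hm1 : B ≤ m := le_trans (le_max_left _ _) hm
    have hm2 : m0 ≤ m := le_trans (le_trans (le_max_left _ _) (le_max_right _ _)) hm
    have hm3 : (ss l.length l.length).1 + 1 ≤ m :=
      le_trans (le_trans (le_max_right _ _) (le_max_right _ _)) hm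
    obtain ⟨p, r, hp, hr, hpr⟩ := exists_good Y T m (h m hm2)
    exact ⟨(m, p, r), hml, fun u hu => (hB m hm1 u hu).2, by simp only; omega, ⟨hp, hr⟩, hpr,
      fun u hu => (hB m hm1 u hu).1 p r⟩
  choose next hn using hnext
  let pre : ℕ → List (ℕ × ℕ × ℕ) := fun i => Nat.rec [] (fun _ l => l ++ [next l]) i
  have hpre0 : pre 0 = [] := rfl
  have hpreS : ∀ i, pre (i + 1) = pre i ++ [next (pre i)] := fun i => rfl
  let s : ℕ → ℕ × ℕ × ℕ := fun i => next (pre i)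
  have hpre : ∀ i, pre i = (List.range i).map s := by
    intro i
    induction i with
    | zero => rfl
    | succ i ih =>
      rw [hpreS, List.range_succ, List.map_append, ← ih]
      rfl
  have hlen : ∀ i, (pre i).length = i := by
    intro i; rw [hpre]; simp
  have hmem : ∀ i j, i < j → s i ∈ pre j := by
    intro i j hij
    rw [hpre, List.mem_map]
    exact ⟨i, List.mem_range.2 hij, rfl⟩
  have hbr : Y.IsBranch s :=
    { mono := fun i j hij => (hn (pre j)).2.1 (s i) (hmem i j hij)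
      valid := fun i => (hn (pre i)).2.2.2.1
      hist := fun i => by rw [← hpre]; exact (hn (pre i)).1 }
  refine ⟨⟨s, hbr⟩, ?_, ?_⟩
  · intro n hc
    have h1 := (hn (pre n)).2.2.1
    rw [hlen] at h1
    have h2 : s n = ss n n := congrFun hc n
    rw [← h2] at h1
    exact lt_irrefl _ h1
  · intro i
    refine ⟨(hn (pre i)).2.2.2.2.1, ?_⟩
    intro F hiF
    have hb : ∀ l ∈ F, |A (s i) (s l)| ≤ 1 / 16 * (1 / 2) ^ l := by
      intro l hl
      have hne : l ≠ i := fun hc => hiF (hc ▸ hl)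
      rcases lt_or_gt_of_ne hne with hlt | hgt
      · have h1 := ((hn (pre i)).2.2.2.2.2 (s l) (hmem l i hlt)).2
        rw [hlen] at h1
        refine h1.trans ?_
        refine mul_le_mul_of_nonneg_left ?_ (by norm_num)
        exact pow_le_pow_of_le_one (by norm_num) (by norm_num) hlt.le
      · have h1 := ((hn (pre l)).2.2.2.2.2 (s i) (hmem i l hgt)).1
        rw [hlen] at h1
        exact h1
    have h2 : ∑ l ∈ F, |A (s i) (s l)| ≤ ∑ l ∈ F, 1 / 16 * (1 / 2 : ℝ) ^ l :=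
      sum_le_sum hb
    have h3 : ∑ l ∈ F, 1 / 16 * (1 / 2 : ℝ) ^ l ≤ 1 / 16 * 2 := by
      rw [← mul_sum]
      refine mul_le_mul_of_nonneg_left ?_ (by norm_num)
      have h4 := Summable.sum_le_tsum F (fun l _ => by positivity) summable_geometric_two
      rw [tsum_geometric_two] at h4
      exact h4
    change ∑ l ∈ F, |A (s i) (s l)| ≤ 1 / 4
    linarith

end SLA
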