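import Pool.Agent.SLA.Stmts
import Pool.Agent.SLA.Basic

/-!
# MP_91c4ba_an : module Cnt (helper94)
-/

set_option autoImplicit false

namespace SLA

open Finset Filter Topology

variable (Y : Sys) {I : Type} {pf : I → PF}

/-- sign as a real number with `|sgn x| ≤ 1` -/
theorem exists_sgn (x : ℝ) : ∃ c : ℝ, |c| ≤ 1 ∧ c * x = |x| := by
  rcases le_total 0 x with h | h
  · exact ⟨1, by simp, by rw [one_mul, abs_of_nonneg h]⟩
  · exact ⟨-1, by simp, by rw [abs_of_nonpos h]; ring⟩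

theorem Cnt_summable (l : Y.X I pf →L[ℝ] ℝ) (i : I) :
    Summable (fun m => l (Y.incl I pf (Y.trmZ (pf i) m))) := by
  apply Summable.of_abs
  apply summable_of_sum_le (c := ‖l‖) (fun m => abs_nonneg _)
  intro F
  choose c hc1 hc2 using fun m => exists_sgn (l (Y.incl I pf (Y.trmZ (pf i) m)))
  have e1 : ∑ m ∈ F, |l (Y.incl I pf (Y.trmZ (pf i) m))|
      = l (∑ m ∈ F, c m • Y.incl I pf (Y.trmZ (pf i) m)) := by
    rw [map_sum]
    refine Finset.sum_congr rfl fun m _ => ?_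
    rw [map_smul, smul_eq_mul, hc2]
  rw [e1]
  have e2 : ‖(∑ m ∈ F, c m • Y.incl I pf (Y.trmZ (pf i) m) : Y.X I pf)‖ ≤ 1 := by
    rw [← Submodule.norm_coe]
    have e3 : ((∑ m ∈ F, c m • Y.incl I pf (Y.trmZ (pf i) m) : Y.X I pf) : E)
        = ∑ m ∈ F, c m • Y.trm (pf i) m := by
      simp
    rw [e3]
    exact Y.norm_sum_trm_le (pf i) F c 1 zero_le_one hc1
  calc l (∑ m ∈ F, c m • Y.incl I pf (Y.trmZ (pf i) m))
      ≤ ‖l (∑ m ∈ F, c m • Y.incl I pf (Y.trmZ (pf i) m))‖ := le_abs_self _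
    _ ≤ ‖l‖ * ‖(∑ m ∈ F, c m • Y.incl I pf (Y.trmZ (pf i) m) : Y.X I pf)‖ := l.le_opNorm _
    _ ≤ ‖l‖ * 1 := mul_le_mul_of_nonneg_left e2 l.opNorm_nonneg
    _ = ‖l‖ := mul_one _

/-- the tail of `x_gamma` -/
noncomputable def tailX (pf : I → PF) (n : ℕ) (i : I) : Y.X I pf :=
  Y.xvX I pf i - ∑ m ∈ range n, Y.incl I pf (Y.trmZ (pf i) m)

theorem tailX_apply (n : ℕ) (i : I) (ω : Om) :
    ((tailX Y pf n i : Y.X I pf) : E) ω
      = if ω.1 / 2 < n then 0 else Y.trm (pf i) (ω.1 / 2) ω := by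
  have e0 : ((tailX Y pf n i : Y.X I pf) : E)
      = Y.xv (pf i) - ∑ m ∈ range n, Y.trm (pf i) m := by
    simp [tailX]
  rw [e0, E.sub_apply, E.sum_apply, Y.xv_eq_trm]
  have e1 : ∑ m ∈ range n, Y.trm (pf i) m ω
      = if ω.1 / 2 ∈ range n then Y.trm (pf i) (ω.1 / 2) ω else 0 := by
    rw [← Finset.sum_ite_eq (range n) (ω.1 / 2) (fun m => Y.trm (pf i) m ω)]
    refine Finset.sum_congr rfl fun m _ => ?_
    split_ifs with h
    · rfl
    · exact Y.trm_eq_zero (pf i) m ω h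
  rw [e1]
  by_cases h : ω.1 / 2 < n
  · simp [h]
  · simp [h]

theorem norm_sum_tail_le (hAD : Y.AD I pf) (G : Finset I) (c : I → ℝ) (hc : ∀ i, |c i| ≤ 1) :
    ∀ᶠ n in atTop, ‖(∑ i ∈ G, c i • tailX Y pf n i : Y.X I pf)‖ ≤ 1 := by
  classical
  have hfin : (⋃ i ∈ G, ⋃ i' ∈ G, ⋃ (_ : i ≠ i'),
      {m | pf i m ≠ none ∧ pf i' m ≠ none}).Finite := by
    refine Set.Finite.biUnion (Finset.finite_toSet G) fun i _ => ?_
    refine Set.Finite.biUnion (Finset.finite_toSet G) fun i' _ => ?_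
    refine Set.finite_iUnion fun h => ?_
    exact hAD.ad i i' h
  obtain ⟨B, hB⟩ := hfin.bddAbove
  filter_upwards [eventually_gt_atTop B] with n hn
  rw [← Submodule.norm_coe, E.norm_le zero_le_one]
  intro ω
  have e0 : ((∑ i ∈ G, c i • tailX Y pf n i : Y.X I pf) : E) ω
      = ∑ i ∈ G, c i * (if ω.1 / 2 < n then 0 else Y.trm (pf i) (ω.1 / 2) ω) := by
    have : ((∑ i ∈ G, c i • tailX Y pf n i : Y.X I pf) : E)
        = ∑ i ∈ G, c i • ((tailX Y pf n i : Y.X I pf) : E) := by simp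
    rw [this, E.sum_apply]
    refine Finset.sum_congr rfl fun i _ => ?_
    rw [E.smul_apply, tailX_apply]
  rw [e0]
  by_cases hm : ω.1 / 2 < n
  · simp [hm]
  · simp only [hm, if_false]
    have hbd : ∀ i, |c i * Y.trm (pf i) (ω.1 / 2) ω| ≤ 1 := by
      intro i
      rw [abs_mul]
      have h3 : |Y.trm (pf i) (ω.1 / 2) ω| ≤ 1 := Y.abs_xFun_le (pf i) ω
      calc |c i| * |Y.trm (pf i) (ω.1 / 2) ω| ≤ 1 * 1 :=
            mul_le_mul (hc i) h3 (abs_nonneg _) zero_le_one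
        _ = 1 := mul_one 1
    by_cases hex : ∃ i ∈ G, pf i (ω.1 / 2) ≠ none
    · obtain ⟨i, hi, hpi⟩ := hex
      rw [Finset.sum_eq_single_of_mem i hi]
      · exact hbd i
      · intro i' hi' hne
        have : pf i' (ω.1 / 2) = none := by
          by_contra hcon
          have hmem : ω.1 / 2 ∈ (⋃ i ∈ G, ⋃ i' ∈ G, ⋃ (_ : i ≠ i'),
              {m | pf i m ≠ none ∧ pf i' m ≠ none}) := by
            simp only [Set.mem_iUnion]
            exact ⟨i, hi, i', hi', Ne.symm hne, hpi, hcon⟩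
          have := hB hmem
          omega
        rw [Y.trm_none _ _ this]
        simp
    · push Not at hex
      rw [Finset.sum_eq_zero]
      · simp
      · intro i hi
        rw [Y.trm_none _ _ (hex i hi)]
        simp

theorem Cnt_proof : Stmt_Cnt := by
  intro Y I pf hAD l
  -- the defects
  let d : I → ℝ := fun i => l (Y.xvX I pf i) - ∑' m, l (Y.incl I pf (Y.trmZ (pf i) m))
  have hlim : ∀ i, Tendsto (fun n => l (tailX Y pf n i)) atTop (𝓝 (d i)) := by
    intro i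
    have e1 : (fun n => l (tailX Y pf n i)) = fun n => l (Y.xvX I pf i)
        - ∑ m ∈ range n, l (Y.incl I pf (Y.trmZ (pf i) m)) := by
      funext n
      unfold tailX
      rw [map_sub, map_sum]
    rw [e1]
    exact tendsto_const_nhds.sub (Cnt_summable Y l i).hasSum.tendsto_sum_nat
  have hsum : Summable (fun i => |d i|) := by
    apply summable_of_sum_le (c := ‖l‖) (fun i => abs_nonneg _)
    intro G
    choose c hc1 hc2 using fun i => exists_sgn (d i)
    have e1 : Tendsto (fun n => ∑ i ∈ G, c i * l (tailX Y pf n i)) atTop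
        (𝓝 (∑ i ∈ G, c i * d i)) :=
      tendsto_finsetSum _ fun i _ => (hlim i).const_mul _
    have e2 : ∑ i ∈ G, |d i| = ∑ i ∈ G, c i * d i :=
      Finset.sum_congr rfl fun i _ => (hc2 i).symm
    rw [e2]
    apply le_of_tendsto e1
    filter_upwards [norm_sum_tail_le Y hAD G c hc1] with n hn
    have e3 : ∑ i ∈ G, c i * l (tailX Y pf n i) = l (∑ i ∈ G, c i • tailX Y pf n i) := by
      rw [map_sum]
      refine Finset.sum_congr rfl fun i _ => ?_
      rw [map_smul, smul_eq_mul]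
    rw [e3]
    calc l (∑ i ∈ G, c i • tailX Y pf n i) ≤ ‖l (∑ i ∈ G, c i • tailX Y pf n i)‖ :=
          le_abs_self _
      _ ≤ ‖l‖ * ‖(∑ i ∈ G, c i • tailX Y pf n i : Y.X I pf)‖ := l.le_opNorm _
      _ ≤ ‖l‖ * 1 := mul_le_mul_of_nonneg_left hn l.opNorm_nonneg
      _ = ‖l‖ := mul_one _
  refine hsum.countable_support.mono ?_
  intro i hi
  simp only [Set.mem_ofPred_eq] at hi
  rw [Function.mem_support]
  intro h0
  apply hi
  have h1 : d i = 0 := abs_eq_zero.1 h0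
  have h2 : l (Y.xvX I pf i) = ∑' m, l (Y.incl I pf (Y.trmZ (pf i) m)) := sub_eq_zero.1 h1
  rw [h2]
  exact (Cnt_summable Y l i).hasSum

end SLA
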