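import Pool.Agent.SLA.Stmts

/-!
# MP_91c4ba_an : averaging by the divergence theorem (module Div)
-/

set_option autoImplicit false

namespace SLA

open MeasureTheory Set Finset

theorem Div_fin (X Z : Type) [NormedAddCommGroup X] [NormedSpace ℝ X]
    [NormedAddCommGroup Z] [NormedSpace ℝ Z] (ι : Z →L[ℝ] X) (g : X → Z) (ε : ℝ)
    (n : ℕ) (v : Fin (n + 1) → Z) (a : Fin (n + 1) → Z →L[ℝ] ℝ)
    (hg : ContDiff ℝ 1 g) (hε : ∀ z, ‖g (ι z) - z‖ ≤ ε) (ha : ∀ j z, |a j z| ≤ ‖z‖)
    (h1 : ∀ i, a i (v i) = 1) (h0 : ∀ i j, i ≠ j → a i (v j) = 0) :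
    ∃ x : Z, 3 / 4 * ((n : ℝ) + 1) ≤ ∑ j, a j (fderiv ℝ g (ι x) (ι (v j))) := by
  by_contra hcon
  push Not at hcon
  have hε0 : 0 ≤ ε := (norm_nonneg _).trans (hε 0)
  let L : (Fin (n + 1) → ℝ) →L[ℝ] Z :=
    ∑ i, (ContinuousLinearMap.proj (R := ℝ) (φ := fun _ : Fin (n + 1) => ℝ) i).smulRight (v i)
  have hL : ∀ t, L t = ∑ i, t i • v i := by
    intro t
    simp [L]
  have hLe : ∀ i, L (Pi.single i 1) = v i := by
    intro i
    rw [hL, Finset.sum_eq_single i]
    · simp
    · intro j _ hj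
      simp [Pi.single_eq_of_ne hj]
    · intro h
      exact absurd (Finset.mem_univ i) h
  have haL : ∀ i t, a i (L t) = t i := by
    intro i t
    rw [hL, map_sum, Finset.sum_eq_single i]
    · rw [map_smul, h1, smul_eq_mul, mul_one]
    · intro j _ hj
      rw [map_smul, h0 i j (Ne.symm hj), smul_zero]
    · intro h
      exact absurd (Finset.mem_univ i) h
  let f : Fin (n + 1) → (Fin (n + 1) → ℝ) → ℝ := fun i t => a i (g (ι (L t)))
  let f' : Fin (n + 1) → (Fin (n + 1) → ℝ) → (Fin (n + 1) → ℝ) →L[ℝ] ℝ := fun i t =>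
    (a i).comp ((fderiv ℝ g (ι (L t))).comp (ι.comp L))
  have hd : ∀ i t, HasFDerivAt (f i) (f' i t) t := by
    intro i t
    have e1 : HasFDerivAt (fun t => ι (L t)) (ι.comp L) t := (ι.comp L).hasFDerivAt
    have e2 : HasFDerivAt g (fderiv ℝ g (ι (L t))) (ι (L t)) :=
      (hg.differentiable one_ne_zero (ι (L t))).hasFDerivAt
    exact (a i).hasFDerivAt.comp t (e2.comp t e1)
  have hf : ∀ i t, |f i t - t i| ≤ ε := by
    intro i t
    have : f i t - t i = a i (g (ι (L t)) - L t) := by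
      rw [map_sub, haL]
    rw [this]
    exact (ha i _).trans (hε (L t))
  have hfc : ∀ i, Continuous (f i) := by
    intro i
    exact (a i).continuous.comp (hg.continuous.comp (ι.continuous.comp L.continuous))
  have hf'c : Continuous (fun x => ∑ i, f' i x (Pi.single i 1)) := by
    refine continuous_finsetSum _ fun i _ => ?_
    have e1 : Continuous (fun x => fderiv ℝ g (ι (L x))) :=
      (hg.continuous_fderiv one_ne_zero).comp (ι.continuous.comp L.continuous)
    have e2 : Continuous (fun x => fderiv ℝ g (ι (L x)) (ι (L (Pi.single i 1)))) :=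
      e1.clm_apply continuous_const
    exact (a i).continuous.comp e2
  set R : ℝ := 8 * ε + 1 with hR
  have hR0 : 0 < R := by positivity
  have hle : (fun _ : Fin (n + 1) => (0 : ℝ)) ≤ fun _ => R := fun _ => hR0.le
  have hint := integral_divergence_of_hasFDerivAt_off_countable' (fun _ => (0 : ℝ))
    (fun _ => R) hle f f' ∅ Set.countable_empty (fun i => (hfc i).continuousOn)
    (fun x _ i => hd i x) hf'c.integrableOn_Icc
  -- left side
  have hleft : (∫ x in Icc (fun _ : Fin (n + 1) => (0 : ℝ)) (fun _ => R),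
      ∑ i, f' i x (Pi.single i 1)) ≤ 3 / 4 * ((n : ℝ) + 1) * R ^ (n + 1) := by
    have e1 : (∫ x in Icc (fun _ : Fin (n + 1) => (0 : ℝ)) (fun _ => R),
      ∑ i, f' i x (Pi.single i 1)) ≤ ∫ x in Icc (fun _ : Fin (n + 1) => (0 : ℝ)) (fun _ => R),
        3 / 4 * ((n : ℝ) + 1) := by
      apply setIntegral_mono_on hf'c.integrableOn_Icc continuous_const.integrableOn_Icc
        measurableSet_Icc
      intro x _
      have := hcon (L x)
      have e : ∑ i, f' i x (Pi.single i 1)
          = ∑ j, a j (fderiv ℝ g (ι (L x)) (ι (v j))) := by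
        refine Finset.sum_congr rfl fun i _ => ?_
        show a i (fderiv ℝ g (ι (L x)) (ι (L (Pi.single i 1)))) = _
        rw [hLe]
      rw [e]
      exact this.le
    rw [setIntegral_const] at e1
    have e2 : (volume : Measure (Fin (n + 1) → ℝ)).real
        (Icc (fun _ : Fin (n + 1) => (0 : ℝ)) (fun _ => R)) = R ^ (n + 1) := by
      rw [Measure.real, Real.volume_Icc_pi_toReal hle]
      simp
    rw [e2, smul_eq_mul] at e1
    linarith
  -- right side
  have hright : ((n : ℝ) + 1) * (R ^ n * (R - 2 * ε)) ≤ ∑ i : Fin (n + 1),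
      ((∫ x in Icc ((fun _ : Fin (n + 1) => (0 : ℝ)) ∘ i.succAbove)
        ((fun _ : Fin (n + 1) => R) ∘ i.succAbove), f i (i.insertNth R x)) -
        ∫ x in Icc ((fun _ : Fin (n + 1) => (0 : ℝ)) ∘ i.succAbove)
        ((fun _ : Fin (n + 1) => R) ∘ i.succAbove), f i (i.insertNth 0 x)) := by
    have e0 : ((n : ℝ) + 1) * (R ^ n * (R - 2 * ε))
        = ∑ _i : Fin (n + 1), (R ^ n * (R - 2 * ε)) := by
      rw [Finset.sum_const, Finset.card_univ, Fintype.card_fin, nsmul_eq_mul]
      push_cast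
      ring
    rw [e0]
    refine Finset.sum_le_sum fun i _ => ?_
    have hle' : ((fun _ : Fin (n + 1) => (0 : ℝ)) ∘ i.succAbove)
        ≤ ((fun _ : Fin (n + 1) => R) ∘ i.succAbove) := fun _ => hR0.le
    have hvol : (volume : Measure (Fin n → ℝ)).real
        (Icc ((fun _ : Fin (n + 1) => (0 : ℝ)) ∘ i.succAbove)
        ((fun _ : Fin (n + 1) => R) ∘ i.succAbove)) = R ^ n := by
      rw [Measure.real, Real.volume_Icc_pi_toReal hle']
      simp
    have hcont : ∀ c : ℝ, Continuous (fun x : Fin n → ℝ => f i (i.insertNth c x)) := by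
      intro c
      apply (hfc i).comp
      exact Continuous.finInsertNth i continuous_const continuous_id
    have e1 : (R - ε) * R ^ n ≤ ∫ x in Icc ((fun _ : Fin (n + 1) => (0 : ℝ)) ∘ i.succAbove)
        ((fun _ : Fin (n + 1) => R) ∘ i.succAbove), f i (i.insertNth R x) := by
      have := setIntegral_mono_on (μ := (volume : Measure (Fin n → ℝ)))
        (s := Icc ((fun _ : Fin (n + 1) => (0 : ℝ)) ∘ i.succAbove)
        ((fun _ : Fin (n + 1) => R) ∘ i.succAbove))
        (f := fun _ => R - ε) (g := fun x => f i (i.insertNth R x))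
        continuous_const.integrableOn_Icc (hcont R).integrableOn_Icc measurableSet_Icc (by
          intro x _
          have := abs_le.1 (hf i (i.insertNth R x))
          rw [Fin.insertNth_apply_same] at this
          linarith [this.1])
      rw [setIntegral_const, hvol, smul_eq_mul] at this
      linarith
    have e2 : (∫ x in Icc ((fun _ : Fin (n + 1) => (0 : ℝ)) ∘ i.succAbove)
        ((fun _ : Fin (n + 1) => R) ∘ i.succAbove), f i (i.insertNth 0 x)) ≤ ε * R ^ n := by
      have := setIntegral_mono_on (μ := (volume : Measure (Fin n → ℝ)))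
        (s := Icc ((fun _ : Fin (n + 1) => (0 : ℝ)) ∘ i.succAbove)
        ((fun _ : Fin (n + 1) => R) ∘ i.succAbove))
        (f := fun x => f i (i.insertNth 0 x)) (g := fun _ => ε)
        (hcont 0).integrableOn_Icc continuous_const.integrableOn_Icc measurableSet_Icc (by
          intro x _
          have := abs_le.1 (hf i (i.insertNth 0 x))
          rw [Fin.insertNth_apply_same] at this
          linarith [this.2])
      rw [setIntegral_const, hvol, smul_eq_mul] at this
      linarith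
    nlinarith [e1, e2]
  have hfin : ((n : ℝ) + 1) * (R ^ n * (R - 2 * ε)) ≤ 3 / 4 * ((n : ℝ) + 1) * R ^ (n + 1) :=
    (hright.trans hint.symm.le).trans hleft
  have hpos : 0 < ((n : ℝ) + 1) * R ^ n := by positivity
  have : R - 2 * ε ≤ 3 / 4 * R := by
    have e : ((n : ℝ) + 1) * R ^ n * (R - 2 * ε) ≤ ((n : ℝ) + 1) * R ^ n * (3 / 4 * R) := by
      calc ((n : ℝ) + 1) * R ^ n * (R - 2 * ε) = ((n : ℝ) + 1) * (R ^ n * (R - 2 * ε)) := by ring
        _ ≤ 3 / 4 * ((n : ℝ) + 1) * R ^ (n + 1) := hfin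
        _ = ((n : ℝ) + 1) * R ^ n * (3 / 4 * R) := by ring
    exact le_of_mul_le_mul_left e hpos
  rw [hR] at this
  linarith

theorem Div_proof : Stmt_Div := by
  intro X Z _ _ _ _ ι g ε J _ _ v a hg hε ha h1 h0
  obtain ⟨n, hn⟩ : ∃ n, Fintype.card J = n + 1 :=
    Nat.exists_eq_succ_of_ne_zero Fintype.card_ne_zero
  let eq : Fin (n + 1) ≃ J := (Fintype.equivFinOfCardEq hn).symm
  obtain ⟨x, hx⟩ := Div_fin X Z ι g ε n (fun i => v (eq i)) (fun i => a (eq i)) hg hε
    (fun j z => ha _ z) (fun i => h1 _) (fun i j hij => h0 _ _ (fun h => hij (eq.injective h)))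
  refine ⟨x, ?_⟩
  rw [hn, ← Equiv.sum_comp eq (fun j => a j (fderiv ℝ g (ι x) (ι (v j))))]
  push_cast
  exact hx

end SLA
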