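import Pool.Agent.SLA.Stmts
import Pool.Agent.SLA.Basic

/-!
# MP_91c4ba_an : module NoOp (helper71)
-/

set_option autoImplicit false

namespace SLA

open Finset

theorem hasSum_lower {f : ℕ → ℝ} {a : ℝ} (m : ℕ) (h : HasSum f a) (hm : 1 / 2 ≤ f m)
    (hF : ∀ F : Finset ℕ, m ∉ F → ∑ k ∈ F, |f k| ≤ 1 / 4) : 1 / 4 ≤ a := by
  refine ge_of_tendsto h ?_
  filter_upwards [Filter.eventually_ge_atTop {m}] with F hmF
  have hmF' : m ∈ F := hmF (mem_singleton_self m)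
  rw [← add_sum_erase F f hmF']
  have h1 := hF (F.erase m) (notMem_erase m F)
  have h2 := abs_sum_le_sum_abs f (F.erase m)
  have h3 := (abs_le.1 (h2.trans h1)).1
  linarith

theorem NoOp_proof : Stmt_ADB → Stmt_Cnt → Stmt_Brn → Stmt_NoOp := by
  intro hADB hCnt hBrn Y S m0 h
  obtain ⟨hAD, hpf, hpf2⟩ := hADB Y
  -- the exceptional set
  let lam : Om → (Y.X Y.Br Y.pfB →L[ℝ] ℝ) := fun ω => (ev ω).comp (Y.Z.subtypeL.comp S)
  let C : Set (ℕ → ℕ × ℕ × ℕ) := (fun s : Y.Br => s.1) '' (⋃ ω : Om, {s : Y.Br |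
    ¬ HasSum (fun m => lam ω (Y.incl Y.Br Y.pfB (Y.trmZ (Y.pfB s) m)))
      (lam ω (Y.xvX Y.Br Y.pfB s))})
  have hC : C.Countable :=
    (Set.countable_iUnion fun ω => hCnt Y Y.Br Y.pfB hAD (lam ω)).image _
  have hC' : (insert (fun _ => (0, 0, 0)) C).Countable := hC.insert _
  obtain ⟨ss, hss⟩ := hC'.exists_eq_range ⟨_, Set.mem_insert _ _⟩
  obtain ⟨s, hs1, hs2⟩ := hBrn Y (S.comp (Y.incl Y.Br Y.pfB)) m0 h ss
  have hsC : s.1 ∉ C := by
    intro hc
    have : s.1 ∈ Set.range ss := by rw [← hss]; exact Set.mem_insert_of_mem _ hc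
    obtain ⟨n, hn⟩ := this
    exact hs1 n hn.symm
  have hsum : ∀ ω : Om, HasSum (fun m => (S (Y.incl Y.Br Y.pfB (Y.trmZ (Y.pfB s) m)) : E) ω)
      ((S (Y.xvX Y.Br Y.pfB s) : E) ω) := by
    intro ω
    by_contra hc
    exact hsC ⟨s, Set.mem_iUnion.2 ⟨ω, hc⟩, rfl⟩
  have hlow : ∀ i, 1 / 4 ≤ Y.alpha (2 * (s.1 i).1) (s.1 i).2.1 (s.1 i).2.2
      (S (Y.xvX Y.Br Y.pfB s) : E) := by
    intro i
    obtain ⟨hi1, hi2⟩ := hs2 i
    have hS : HasSum (fun m => Y.alpha (2 * (s.1 i).1) (s.1 i).2.1 (s.1 i).2.2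
        (S (Y.incl Y.Br Y.pfB (Y.trmZ (Y.pfB s) m)) : E))
        (Y.alpha (2 * (s.1 i).1) (s.1 i).2.1 (s.1 i).2.2 (S (Y.xvX Y.Br Y.pfB s) : E)) := by
      simp only [Sys.alpha_apply]
      refine HasSum.mul_left _ ?_
      refine hasSum_sum fun g _ => ?_
      exact HasSum.mul_left _ (hsum _)
    have hterm : ∀ l, Y.trmZ (Y.pfB s) (s.1 l).1 =
        Y.blkZ (2 * (s.1 l).1) (s.1 l).2.1 (s.1 l).2.2 := by
      intro l
      exact Subtype.ext (Y.trm_some _ _ _ (hpf s l))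
    have hinj : Function.Injective (fun i => (s.1 i).1) := s.2.mono.injective
    refine hasSum_lower (s.1 i).1 hS ?_ ?_
    · rw [hterm]; exact hi1
    · intro F hF
      classical
      -- reindex
      let F' : Finset ℕ := F.filter (fun m => ∃ l, (s.1 l).1 = m)
      have hzero : ∀ m ∈ F, m ∉ F' → |Y.alpha (2 * (s.1 i).1) (s.1 i).2.1 (s.1 i).2.2
          (S (Y.incl Y.Br Y.pfB (Y.trmZ (Y.pfB s) m)) : E)| = 0 := by
        intro m hm hm'
        have h1 : Y.pfB s m = none := by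
          by_contra hc
          exact hm' (mem_filter.2 ⟨hm, hpf2 s m hc⟩)
        have h2 : Y.trmZ (Y.pfB s) m = 0 := Subtype.ext (Y.trm_none _ _ h1)
        rw [h2, map_zero, map_zero]
        simp
      rw [← sum_subset (filter_subset _ F) hzero]
      let G : Finset ℕ := F'.preimage (fun l => (s.1 l).1) hinj.injOn
      have hG : F' = G.image (fun l => (s.1 l).1) := by
        ext m
        simp only [G, mem_image, mem_preimage]
        constructor
        · intro hm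
          obtain ⟨l, hl⟩ := (mem_filter.1 hm).2
          exact ⟨l, by rw [hl]; exact hm, hl⟩
        · rintro ⟨l, hl, rfl⟩; exact hl
      change ∑ k ∈ F', _ ≤ _
      rw [hG, sum_image (fun a _ b _ hab => hinj hab)]
      have hiG : i ∉ G := by
        intro hc
        rw [mem_preimage] at hc
        exact hF ((mem_filter.1 hc).1)
      have h3 := hi2 G hiG
      refine le_trans (le_of_eq ?_) h3
      refine sum_congr rfl fun l _ => ?_
      rw [hterm]
      rfl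
  obtain ⟨n0, hn0⟩ := Y.Z_small (S (Y.xvX Y.Br Y.pfB s) : E) (S (Y.xvX Y.Br Y.pfB s)).2
    (1 / 8) (by norm_num)
  have hid : n0 ≤ (s.1 n0).1 := s.2.mono.id_le n0
  have h4 : |Y.alpha (2 * (s.1 n0).1) (s.1 n0).2.1 (s.1 n0).2.2
      (S (Y.xvX Y.Br Y.pfB s) : E)| ≤ 1 / 8 :=
    Y.abs_alpha_le _ _ _ _ _ (fun g _ => (hn0 _ (by simp only; omega)).le)
  have h5 := hlow n0
  have h6 := (abs_le.1 h4).2
  linarith

end SLA
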