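import Pool.Agent.SLA.Defs

/-!
# MP_91c4ba_an : module statements (helper71).  Paper proof: /team-store/MP_91c4ba_PROOF.md
Each module `<Name>` is one file `Pool/Agent/SLA/<Name>.lean` with a theorem `<Name>_proof`.
-/

set_option autoImplicit false

namespace SLA

/-- Section 1, existence of a system (finite fields of characteristic 2). -/
def Stmt_Sys : Prop := Nonempty Sys

/-- Section 1, trace estimate. -/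
def Stmt_Trc : Prop := ∀ (Y : Sys) (n : ℕ) (T : Y.Z →L[ℝ] Y.Z),
  |Y.beta (n + 1) T - Y.beta n T| ≤ ‖T‖ * Y.eps n

/-- Section 2, the functionals `q_gamma`. -/
def Stmt_Q : Prop := ∀ (Y : Sys) (I : Type) (pf : I → PF), Y.AD I pf →
  ∃ q : I → (Y.X I pf →L[ℝ] ℝ),
    (∀ i x, |q i x| ≤ ‖x‖) ∧
    (∀ i (z : Y.Z), q i (Y.incl I pf z) = 0) ∧
    (∀ i, q i (Y.xvX I pf i) = 1) ∧
    (∀ i i', i ≠ i' → q i (Y.xvX I pf i') = 0) ∧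
    (∀ (x : Y.X I pf) (δ : ℝ), 0 < δ → {i | δ ≤ |q i x|}.Finite) ∧
    (∀ (x : Y.X I pf) (s δ : ℝ), 0 ≤ s → 0 < δ → (∀ i, |q i x| ≤ s) →
      {ω : Om | s + δ ≤ |(x : E) ω|}.Finite)

/-- Section 3, the Lipschitz retraction of `X` onto `Z`. -/
def Stmt_Ret : Prop := ∀ (Y : Sys) (I : Type) (pf : I → PF), Y.AD I pf →
  ∃ (K : NNReal) (r : Y.X I pf → Y.Z), LipschitzWith K r ∧ ∀ z : Y.Z, r (Y.incl I pf z) = z

/-- Section 4, the smooth bump (abstract form). -/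
def Stmt_Bmp : Prop := ∀ (X : Type) [NormedAddCommGroup X] [NormedSpace ℝ X] (I W : Type)
  (q : I → X →L[ℝ] ℝ) (e : W → X →L[ℝ] ℝ),
  (∀ i x, |q i x| ≤ ‖x‖) → (∀ w x, |e w x| ≤ ‖x‖) →
  (∀ (x : X) (C : ℝ), 0 ≤ C → (∀ w, |e w x| ≤ C) → ‖x‖ ≤ C) →
  (∀ (x : X) (δ : ℝ), 0 < δ → {i | δ ≤ |q i x|}.Finite) →
  (∀ (x : X) (s δ : ℝ), 0 ≤ s → 0 < δ → (∀ i, |q i x| ≤ s) → {w | s + δ ≤ |e w x|}.Finite) →
  ∃ b : X → ℝ, ContDiff ℝ ((⊤ : ℕ∞) : WithTop ℕ∞) b ∧ (∃ L : NNReal, LipschitzWith L b) ∧ b ≠ 0 ∧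
    Bornology.IsBounded (Function.support b)

/-- Section 2, the branches form an almost disjoint family. -/
def Stmt_ADB : Prop := ∀ (Y : Sys), Y.AD Y.Br Y.pfB ∧
  (∀ (s : Y.Br) (i : ℕ), Y.pfB s (s.1 i).1 = some (s.1 i).2) ∧
  (∀ (s : Y.Br) (m : ℕ), Y.pfB s m ≠ none → ∃ i, (s.1 i).1 = m)

/-- Section 5 (a): for a functional on `X`, all but countably many `x_gamma` are summed correctly. -/
def Stmt_Cnt : Prop := ∀ (Y : Sys) (I : Type) (pf : I → PF), Y.AD I pf →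
  ∀ l : Y.X I pf →L[ℝ] ℝ,
    {i | ¬ HasSum (fun m => l (Y.incl I pf (Y.trmZ (pf i) m))) (l (Y.xvX I pf i))}.Countable

/-- Section 5 (b): good branches (different from countably many given sequences). -/
def Stmt_Brn : Prop := ∀ (Y : Sys) (T : Y.Z →L[ℝ] Y.Z) (m0 : ℕ),
  (∀ m, m0 ≤ m → 1 / 2 ≤ Y.beta (2 * m) T) → ∀ ss : ℕ → ℕ → ℕ × ℕ × ℕ,
  ∃ s : Y.Br, (∀ n, s.1 ≠ ss n) ∧ ∀ i,
    1 / 2 ≤ Y.alpha (2 * (s.1 i).1) (s.1 i).2.1 (s.1 i).2.2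
      (T (Y.blkZ (2 * (s.1 i).1) (s.1 i).2.1 (s.1 i).2.2) : E) ∧
    ∀ F : Finset ℕ, i ∉ F →
      ∑ l ∈ F, |Y.alpha (2 * (s.1 i).1) (s.1 i).2.1 (s.1 i).2.2
        (T (Y.blkZ (2 * (s.1 l).1) (s.1 l).2.1 (s.1 l).2.2) : E)| ≤ 1 / 4

/-- Section 5 (c): no operator `X → Z` has all large traces `≥ 1/2`. -/
def Stmt_NoOp : Prop := ∀ (Y : Sys) (S : Y.X Y.Br Y.pfB →L[ℝ] Y.Z) (m0 : ℕ),
  ¬ (∀ m, m0 ≤ m → 1 / 2 ≤ Y.beta (2 * m) (S.comp (Y.incl Y.Br Y.pfB)))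

/-- Section 6: averaging by the divergence theorem (abstract form). -/
def Stmt_Div : Prop := ∀ (X Z : Type) [NormedAddCommGroup X] [NormedSpace ℝ X]
  [NormedAddCommGroup Z] [NormedSpace ℝ Z] (ι : Z →L[ℝ] X) (g : X → Z) (ε : ℝ)
  (J : Type) [Fintype J] [Nonempty J] (v : J → Z) (a : J → Z →L[ℝ] ℝ),
  ContDiff ℝ 1 g → (∀ z, ‖g (ι z) - z‖ ≤ ε) → (∀ j z, |a j z| ≤ ‖z‖) →
  (∀ i, a i (v i) = 1) → (∀ i j, i ≠ j → a i (v j) = 0) →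
  ∃ x : Z, 3 / 4 * (Fintype.card J : ℝ) ≤ ∑ j, a j (fderiv ℝ g (ι x) (ι (v j)))

end SLA
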