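import Pool.Agent.SLA.Basic
import Pool.Agent.SLA.Stmts

/-!
# MP_91c4ba_an : module Q (helper5)
-/

set_option autoImplicit false

namespace SLA

open Finset Filter Topology

variable (Y : Sys)

/-- A generalised limit along an infinite set of indices. -/
theorem exists_lim (A : Set ℕ) (hA : A.Infinite) (a : ℕ → E →L[ℝ] ℝ)
    (ha : ∀ m x, |a m x| ≤ ‖x‖) :
    ∃ L : E →L[ℝ] ℝ, (∀ x, |L x| ≤ ‖x‖) ∧
      ∀ x (c : ℝ), {m | m ∈ A ∧ a m x ≠ c}.Finite → L x = c := by
  have hne : (cofinite ⊓ 𝓟 A : Filter ℕ).NeBot := by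
    rw [cofinite_inf_principal_neBot_iff]
    exact hA
  let U : Ultrafilter ℕ := Ultrafilter.of (cofinite ⊓ 𝓟 A)
  have hU : (U : Filter ℕ) ≤ cofinite ⊓ 𝓟 A := Ultrafilter.of_le _
  have hex : ∀ x, ∃ l : ℝ, |l| ≤ ‖x‖ ∧ Tendsto (fun m => a m x) (U : Filter ℕ) (𝓝 l) := by
    intro x
    have hK : IsCompact (Set.Icc (-‖x‖) ‖x‖) := isCompact_Icc
    have hle : ((U.map (fun m => a m x) : Ultrafilter ℝ) : Filter ℝ) ≤ 𝓟 (Set.Icc (-‖x‖) ‖x‖) := by
      rw [le_principal_iff]
      show (fun m => a m x) ⁻¹' (Set.Icc (-‖x‖) ‖x‖) ∈ (U : Filter ℕ)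
      have : (fun m => a m x) ⁻¹' (Set.Icc (-‖x‖) ‖x‖) = Set.univ := by
        ext m
        simp only [Set.mem_preimage, Set.mem_Icc, Set.mem_univ, iff_true]
        exact abs_le.1 (ha m x)
      rw [this]
      exact univ_mem
    obtain ⟨l, hl, hl2⟩ := hK.ultrafilter_le_nhds _ hle
    exact ⟨l, abs_le.2 hl, hl2⟩
  choose l hl1 hl2 using hex
  let L0 : E →ₗ[ℝ] ℝ :=
    { toFun := l
      map_add' := fun x y => by
        have h1 := (hl2 x).add (hl2 y)
        have h2 := hl2 (x + y)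
        have h3 : (fun m => a m x + a m y) = fun m => a m (x + y) := by
          funext m; rw [map_add]
        rw [h3] at h1
        exact tendsto_nhds_unique h2 h1
      map_smul' := fun c x => by
        have h1 := (hl2 x).const_mul c
        have h2 := hl2 (c • x)
        have h3 : (fun m => c * a m x) = fun m => a m (c • x) := by
          funext m; rw [map_smul, smul_eq_mul]
        rw [h3] at h1
        exact tendsto_nhds_unique h2 h1 }
  refine ⟨L0.mkContinuous 1 (fun x => by rw [one_mul]; exact hl1 x), hl1, ?_⟩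
  intro x c hfin
  have hev : ∀ᶠ m in (U : Filter ℕ), a m x = c := by
    have h1 : ({m | m ∈ A ∧ a m x ≠ c} : Set ℕ)ᶜ ∈ (cofinite : Filter ℕ) := hfin.compl_mem_cofinite
    have h2 : A ∈ (U : Filter ℕ) := hU (mem_inf_of_right (mem_principal_self A))
    have h3 : ({m | m ∈ A ∧ a m x ≠ c} : Set ℕ)ᶜ ∈ (U : Filter ℕ) := hU (mem_inf_of_left h1)
    filter_upwards [h2, h3] with m hm hm'
    by_contra hc
    exact hm' ⟨hm, hc⟩
  have h4 : Tendsto (fun m => a m x) (U : Filter ℕ) (𝓝 c) := by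
    refine Tendsto.congr' ?_ tendsto_const_nhds
    filter_upwards [hev] with m hm
    exact hm.symm
  exact tendsto_nhds_unique (hl2 x) h4

/-- `alpha` at the triple of `γ` at level `m` (zero if there is none). -/
noncomputable def Sys.al (γ : PF) (m : ℕ) : E →L[ℝ] ℝ :=
  match γ m with
  | none => 0
  | some j => Y.alpha (2 * m) j.1 j.2

theorem Sys.al_none (γ : PF) (m : ℕ) (h : γ m = none) : Y.al γ m = 0 := by
  unfold Sys.al; rw [h]

theorem Sys.al_some (γ : PF) (m : ℕ) (j : ℕ × ℕ) (h : γ m = some j) :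
    Y.al γ m = Y.alpha (2 * m) j.1 j.2 := by
  unfold Sys.al; rw [h]

theorem Sys.abs_al_le (γ : PF) (m : ℕ) (x : E) : |Y.al γ m x| ≤ ‖x‖ := by
  cases h : γ m with
  | none => rw [Y.al_none γ m h]; simp
  | some j => rw [Y.al_some γ m j h]; exact Y.abs_alpha_le_norm _ _ _ _

/-- `alpha (2 m)` only sees the term of level `m`. -/
theorem Sys.alpha_xv (γ : PF) (m p r : ℕ) :
    Y.alpha (2 * m) p r (Y.xv γ) = Y.alpha (2 * m) p r (Y.trm γ m) := by
  rw [Y.alpha_apply, Y.alpha_apply]
  congr 1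
  refine Finset.sum_congr rfl fun g _ => ?_
  rw [Y.xv_eq_trm]
  have : ((2 * m + 1, p, g) : ℕ × ℕ × ℕ).1 / 2 = m := by
    show (2 * m + 1) / 2 = m
    omega
  rw [this]

variable {Y}

/-- Approximation of the elements of `X`. -/
theorem Sys.X_dense (I : Type) (pf : I → PF) (x : E) (hx : x ∈ Y.X I pf) (δ : ℝ) (hδ : 0 < δ) :
    ∃ z ∈ Y.Z, ∃ c : I →₀ ℝ, ‖x - (z + c.sum (fun i a => a • Y.xv (pf i)))‖ < δ := by
  have hx' : x ∈ closure ((Y.Z ⊔ Submodule.span ℝ (Set.range (fun i : I => Y.xv (pf i))) :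
      Submodule ℝ E) : Set E) := hx
  rw [Metric.mem_closure_iff] at hx'
  obtain ⟨y, hy, hd⟩ := hx' δ hδ
  have hy' : y ∈ Y.Z ⊔ Submodule.span ℝ (Set.range (fun i : I => Y.xv (pf i))) := hy
  rw [Submodule.mem_sup] at hy'
  obtain ⟨z, hz, s, hs, rfl⟩ := hy'
  rw [Finsupp.mem_span_range_iff_exists_finsupp] at hs
  obtain ⟨c, hc⟩ := hs
  refine ⟨z, hz, c, ?_⟩
  rw [hc, ← dist_eq_norm]
  exact hd

/-- Only finitely many levels are shared by two members of a finite set. -/
theorem AD.overlap {I : Type} {pf : I → PF} (had : Y.AD I pf) (F : Finset I) :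
    {m | ∃ i ∈ F, ∃ i' ∈ F, i ≠ i' ∧ pf i m ≠ none ∧ pf i' m ≠ none}.Finite := by
  have h : {m | ∃ i ∈ F, ∃ i' ∈ F, i ≠ i' ∧ pf i m ≠ none ∧ pf i' m ≠ none}
      ⊆ ⋃ i ∈ F, ⋃ i' ∈ F, {m | i ≠ i' ∧ pf i m ≠ none ∧ pf i' m ≠ none} := by
    intro m hm
    obtain ⟨i, hi, i', hi', h1, h2, h3⟩ := hm
    simp only [Set.mem_iUnion]
    exact ⟨i, hi, i', hi', h1, h2, h3⟩
  refine Set.Finite.subset ?_ h
  refine Set.Finite.biUnion F.finite_toSet fun i _ => ?_
  refine Set.Finite.biUnion F.finite_toSet fun i' _ => ?_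
  by_cases hii : i = i'
  · have : {m | i ≠ i' ∧ pf i m ≠ none ∧ pf i' m ≠ none} = ∅ := by
      ext m; simp [hii]
    rw [this]; exact Set.finite_empty
  · exact (had.ad i i' hii).subset (fun m hm => ⟨hm.2.1, hm.2.2⟩)

theorem Sys.trm_finite (γ : PF) (m : ℕ) : {ω : Om | Y.trm γ m ω ≠ 0}.Finite := by
  cases h : γ m with
  | none =>
    rw [Y.trm_none γ m h]; simp
  | some j =>
    rw [Y.trm_some γ m j h]; exact Y.blk_finite _ _ _

/-- evaluation of the finite sum -/
theorem Sys.sum_xv_apply {I : Type} (pf : I → PF) (c : I →₀ ℝ) (ω : Om) :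
    (c.sum (fun i a => a • Y.xv (pf i))) ω = ∑ i ∈ c.support, c i * Y.trm (pf i) (ω.1 / 2) ω := by
  rw [Finsupp.sum, E.sum_apply]
  rfl

/-- The values of a finite combination of the `x_γ` are bounded by the largest coefficient outside
a finite set. -/
theorem AD.sum_small {I : Type} {pf : I → PF} (had : Y.AD I pf) (c : I →₀ ℝ) (C : ℝ)
    (hC0 : 0 ≤ C) (hC : ∀ i, |c i| ≤ C) :
    {ω : Om | C < |(c.sum (fun i a => a • Y.xv (pf i))) ω|}.Finite := by
  have hB := AD.overlap had c.support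
  have h : {ω : Om | C < |(c.sum (fun i a => a • Y.xv (pf i))) ω|} ⊆
      ⋃ m ∈ {m | ∃ i ∈ c.support, ∃ i' ∈ c.support, i ≠ i' ∧ pf i m ≠ none ∧ pf i' m ≠ none},
        ⋃ i ∈ c.support, {ω : Om | Y.trm (pf i) m ω ≠ 0} := by
    intro ω hω
    simp only [Set.mem_ofPred_eq] at hω
    rw [Sys.sum_xv_apply] at hω
    simp only [Set.mem_iUnion]
    by_contra hcon
    push Not at hcon
    by_cases hm : ω.1 / 2 ∈ {m | ∃ i ∈ c.support, ∃ i' ∈ c.support, i ≠ i' ∧ pf i m ≠ none ∧
        pf i' m ≠ none}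
    · have h0 : ∑ i ∈ c.support, c i * Y.trm (pf i) (ω.1 / 2) ω = 0 := by
        refine Finset.sum_eq_zero fun i hi => ?_
        have := hcon (ω.1 / 2) hm i hi
        simp only [Set.mem_ofPred_eq, not_not] at this
        rw [this, mul_zero]
      rw [h0, abs_zero] at hω
      linarith
    · simp only [Set.mem_ofPred_eq] at hm
      push Not at hm
      by_cases hex : ∃ i ∈ c.support, pf i (ω.1 / 2) ≠ none
      · obtain ⟨i, hi, hin⟩ := hex
        have h1 : ∑ i ∈ c.support, c i * Y.trm (pf i) (ω.1 / 2) ω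
            = c i * Y.trm (pf i) (ω.1 / 2) ω := by
          refine Finset.sum_eq_single_of_mem i hi fun i' hi' hne => ?_
          have h2 := hm i hi i' hi' (Ne.symm hne) hin
          rw [Y.trm_none (pf i') _ h2]
          simp
        rw [h1, abs_mul] at hω
        have h3 : |Y.trm (pf i) (ω.1 / 2) ω| ≤ 1 := Y.abs_xFun_le (pf i) ω
        have h4 : |c i| * |Y.trm (pf i) (ω.1 / 2) ω| ≤ C * 1 :=
          mul_le_mul (hC i) h3 (abs_nonneg _) hC0
        linarith
      · push Not at hex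
        have h0 : ∑ i ∈ c.support, c i * Y.trm (pf i) (ω.1 / 2) ω = 0 := by
          refine Finset.sum_eq_zero fun i hi => ?_
          rw [Y.trm_none (pf i) _ (hex i hi)]
          simp
        rw [h0, abs_zero] at hω
        linarith
  refine Set.Finite.subset ?_ h
  refine Set.Finite.biUnion hB fun m _ => ?_
  exact Set.Finite.biUnion c.support.finite_toSet fun i _ => Sys.trm_finite (pf i) m

theorem Q_proof : Stmt_Q := by
  classical
  intro Y I pf had
  have h0 : ∀ i, ∃ L : E →L[ℝ] ℝ, (∀ x, |L x| ≤ ‖x‖) ∧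
      ∀ x (c : ℝ), {m | m ∈ {m | pf i m ≠ none} ∧ Y.al (pf i) m x ≠ c}.Finite → L x = c :=
    fun i => exists_lim _ (had.inf i) (Y.al (pf i)) (Y.abs_al_le (pf i))
  choose L hL1 hL2 using h0
  -- values on the blocks
  have hblk : ∀ i n p r, L i (Y.blk n p r) = 0 := by
    intro i n p r
    apply hL2
    refine (Set.finite_singleton (n / 2)).subset ?_
    intro m hm
    obtain ⟨hm1, hm2⟩ := hm
    simp only [Set.mem_singleton_iff]
    by_contra hne
    apply hm2
    cases hj : pf i m with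
    | none => exact absurd hj hm1
    | some j =>
      rw [Y.al_some _ _ j hj]
      obtain ⟨_, hv2⟩ := had.valid i m j hj
      exact Y.alpha_blk_ne _ _ _ _ _ _ hv2 (by omega)
  have hZ : ∀ i, ∀ z ∈ Y.Z, L i z = 0 := by
    intro i z hz
    have hcl : IsClosed {z : E | L i z = 0} := isClosed_eq (L i).continuous continuous_const
    have hsub : (Submodule.span ℝ (Set.range (fun t : ℕ × ℕ × ℕ => Y.blk t.1 t.2.1 t.2.2)) : Set E)
        ⊆ {z : E | L i z = 0} := by
      intro y hy
      have : Submodule.span ℝ (Set.range (fun t : ℕ × ℕ × ℕ => Y.blk t.1 t.2.1 t.2.2))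
          ≤ LinearMap.ker (L i).toLinearMap := by
        rw [Submodule.span_le]
        rintro _ ⟨t, rfl⟩
        exact hblk i _ _ _
      exact this hy
    exact closure_minimal hsub hcl hz
  have hself : ∀ i, L i (Y.xv (pf i)) = 1 := by
    intro i
    apply hL2
    refine Set.finite_empty.subset ?_
    intro m hm0
    obtain ⟨hm, hm2⟩ := hm0
    apply hm2
    cases hj : pf i m with
    | none => exact absurd hj hm
    | some j =>
      rw [Y.al_some _ _ j hj, Y.alpha_xv, Y.trm_some _ _ j hj]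
      obtain ⟨hv1, hv2⟩ := had.valid i m j hj
      rw [Y.alpha_blk _ _ _ _ _ hv2 hv1 hv2]
      simp
  have hother : ∀ i i', i ≠ i' → L i (Y.xv (pf i')) = 0 := by
    intro i i' hne
    apply hL2
    refine (had.ad i i' hne).subset ?_
    intro m hm
    obtain ⟨hm1, hm2⟩ := hm
    refine ⟨hm1, fun hn => hm2 ?_⟩
    cases hj : pf i m with
    | none => exact absurd hj hm1
    | some j =>
      rw [Y.al_some _ _ j hj, Y.alpha_xv, Y.trm_none _ _ hn, map_zero]
  have hcomb : ∀ i (z : E) (_ : z ∈ Y.Z) (c : I →₀ ℝ),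
      L i (z + c.sum (fun i a => a • Y.xv (pf i))) = c i := by
    intro i z hz c
    rw [map_add, hZ i z hz, zero_add, Finsupp.sum, map_sum]
    have h1 : ∀ i' ∈ c.support, L i (c i' • Y.xv (pf i')) = if i = i' then c i' else 0 := by
      intro i' _
      rw [map_smul, smul_eq_mul]
      split_ifs with h
      · rw [← h, hself i, mul_one]
      · rw [hother i i' h, mul_zero]
    rw [Finset.sum_congr rfl h1, Finset.sum_ite_eq]
    split_ifs with h
    · rfl
    · exact (Finsupp.notMem_support_iff.1 h).symm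
  refine ⟨fun i => (L i).comp (Y.X I pf).subtypeL, ?_, ?_, ?_, ?_, ?_, ?_⟩
  · intro i x
    exact hL1 i x
  · intro i z
    exact hZ i z z.2
  · intro i
    exact hself i
  · intro i i' hne
    exact hother i i' hne
  · intro x δ hδ
    obtain ⟨z, hz, c, hc⟩ := Sys.X_dense I pf (x : E) x.2 δ hδ
    refine c.support.finite_toSet.subset ?_
    intro i hi
    have hi' : δ ≤ |L i (x : E)| := hi
    by_contra hn
    have hn' : c i = 0 := Finsupp.notMem_support_iff.1 hn
    have h1 := hL1 i ((x : E) - (z + c.sum (fun i a => a • Y.xv (pf i))))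
    rw [map_sub, hcomb i z hz c, hn', sub_zero] at h1
    linarith
  · intro x s δ hs hδ hq
    obtain ⟨z, hz, c, hc⟩ := Sys.X_dense I pf (x : E) x.2 (δ / 4) (by linarith)
    have hci : ∀ i, |c i| ≤ s + δ / 4 := by
      intro i
      have h1 := hL1 i ((x : E) - (z + c.sum (fun i a => a • Y.xv (pf i))))
      rw [map_sub, hcomb i z hz c] at h1
      have h2 : |L i (x : E)| ≤ s := hq i
      have h3 : |c i| ≤ |L i (x : E)| + |L i (x : E) - c i| := by
        have := abs_sub_abs_le_abs_sub (c i) (L i (x : E))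
        rw [abs_sub_comm] at this
        linarith
      linarith
    have hf1 := AD.sum_small had c (s + δ / 4) (by linarith) hci
    have hf2 := Y.Z_c0 z hz (δ / 4) (by linarith)
    refine (hf1.union hf2).subset ?_
    intro ω hω
    have hω' : s + δ ≤ |(x : E) ω| := hω
    by_contra hcon
    simp only [Set.mem_union, Set.mem_ofPred_eq, not_or, not_lt, not_le] at hcon
    have h1 := E.abs_le_norm ((x : E) - (z + c.sum (fun i a => a • Y.xv (pf i)))) ω
    rw [E.sub_apply, E.add_apply] at h1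
    have h2 : |(x : E) ω| ≤ |(x : E) ω - (z ω + (c.sum (fun i a => a • Y.xv (pf i))) ω)|
        + |z ω| + |(c.sum (fun i a => a • Y.xv (pf i))) ω| := by
      have := abs_add_three ((x : E) ω - (z ω + (c.sum (fun i a => a • Y.xv (pf i))) ω)) (z ω)
        ((c.sum (fun i a => a • Y.xv (pf i))) ω)
      have h5 : (x : E) ω - (z ω + (c.sum (fun i a => a • Y.xv (pf i))) ω) + z ω
        + (c.sum (fun i a => a • Y.xv (pf i))) ω = (x : E) ω := by ring
      rw [h5] at this
      exact this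
    linarith [hcon.1, hcon.2]

end SLA
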