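import Pool.Agent.SLA.Q

/-!
# MP_91c4ba_an : module Ret (helper5)
The Lipschitz retraction of `X` onto `Z` by soft thresholding.
-/

set_option autoImplicit false

namespace SLA

open Finset Filter Topology

/-- soft threshold -/
noncomputable def soft (t s : ℝ) : ℝ := max (t - s) 0 - max (-t - s) 0

theorem soft_lip (t s t' s' d : ℝ) (h1 : |t - t'| ≤ d) (h2 : |s - s'| ≤ d) :
    |soft t s - soft t' s'| ≤ 4 * d := by
  unfold soft
  have a1 : |max (t - s) 0 - max (t' - s') 0| ≤ 2 * d := by
    have h3 := abs_max_sub_max_le_abs (t - s) (t' - s') 0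
    have h4 : |(t - s) - (t' - s')| ≤ |t - t'| + |s - s'| := by
      have := abs_sub (t - t') (s - s')
      have h5 : (t - s) - (t' - s') = (t - t') - (s - s') := by ring
      rw [h5]; exact this
    linarith
  have a2 : |max (-t - s) 0 - max (-t' - s') 0| ≤ 2 * d := by
    have h3 := abs_max_sub_max_le_abs (-t - s) (-t' - s') 0
    have h4 : |(-t - s) - (-t' - s')| ≤ |t - t'| + |s - s'| := by
      have := abs_add_le (t - t') (s - s')
      have h5 : (-t - s) - (-t' - s') = -((t - t') + (s - s')) := by ring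
      rw [h5, abs_neg]; exact this
    linarith
  have h5 : max (t - s) 0 - max (-t - s) 0 - (max (t' - s') 0 - max (-t' - s') 0)
      = (max (t - s) 0 - max (t' - s') 0) - (max (-t - s) 0 - max (-t' - s') 0) := by ring
  rw [h5]
  have := abs_sub (max (t - s) 0 - max (t' - s') 0) (max (-t - s) 0 - max (-t' - s') 0)
  linarith

theorem soft_zero (t s : ℝ) (h : |t| ≤ s) : soft t s = 0 := by
  unfold soft
  have h1 := abs_le.1 h
  rw [max_eq_right (by linarith [h1.2]), max_eq_right (by linarith [h1.1]), sub_zero]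

theorem soft_s0 (t : ℝ) : soft t 0 = t := by
  unfold soft
  rw [sub_zero, sub_zero]
  rcases le_total 0 t with h | h
  · rw [max_eq_left h, max_eq_right (by linarith), sub_zero]
  · rw [max_eq_right h, max_eq_left (by linarith)]; ring

theorem abs_soft_le (t s : ℝ) (hs : 0 ≤ s) : |soft t s| ≤ |t| := by
  rcases le_total |t| s with h | h
  · rw [soft_zero t s h, abs_zero]; exact abs_nonneg t
  · unfold soft
    rcases le_total 0 t with h0 | h0
    · rw [abs_of_nonneg h0] at h ⊢
      rw [max_eq_left (by linarith), max_eq_right (by linarith), sub_zero,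
        abs_of_nonneg (by linarith)]
      linarith
    · rw [abs_of_nonpos h0] at h ⊢
      rw [max_eq_right (by linarith), max_eq_left (by linarith), zero_sub, abs_neg,
        abs_of_nonneg (by linarith)]
      linarith

section

variable {I : Type} (pf : I → PF)

open Classical in
/-- the competition at level `m` -/
noncomputable def cmp (c : I → ℝ) (i : I) (m : ℕ) (i' : I) : ℝ :=
  if i' ≠ i ∧ pf i' m ≠ none then |c i'| else 0

theorem cmp_nonneg (c : I → ℝ) (i : I) (m : ℕ) (i' : I) : 0 ≤ cmp pf c i m i' := by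
  unfold cmp
  split_ifs
  · exact abs_nonneg _
  · exact le_refl _

theorem cmp_le (c : I → ℝ) (C : ℝ) (hC : ∀ i, |c i| ≤ C) (i : I) (m : ℕ) (i' : I) :
    cmp pf c i m i' ≤ C := by
  unfold cmp
  split_ifs
  · exact hC _
  · exact (abs_nonneg _).trans (hC i)

/-- the supremum of the competition -/
noncomputable def sg (c : I → ℝ) (i : I) (m : ℕ) : ℝ := ⨆ i', cmp pf c i m i'

theorem sg_nonneg (c : I → ℝ) (i : I) (m : ℕ) : 0 ≤ sg pf c i m :=
  Real.iSup_nonneg (fun i' => cmp_nonneg pf c i m i')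

theorem cmp_le_sg (c : I → ℝ) (C : ℝ) (hC : ∀ i, |c i| ≤ C) (i : I) (m : ℕ) (i' : I) :
    cmp pf c i m i' ≤ sg pf c i m := by
  refine le_ciSup (f := fun i' => cmp pf c i m i') ⟨C, ?_⟩ i'
  rintro _ ⟨j, rfl⟩
  exact cmp_le pf c C hC i m j

theorem le_sg (c : I → ℝ) (C : ℝ) (hC : ∀ i, |c i| ≤ C) (i : I) (m : ℕ) (i' : I)
    (h1 : i' ≠ i) (h2 : pf i' m ≠ none) : |c i'| ≤ sg pf c i m := by
  have h := cmp_le_sg pf c C hC i m i'
  unfold cmp at h
  rw [if_pos ⟨h1, h2⟩] at h
  exact h

theorem sg_le_add (c c' : I → ℝ) (C : ℝ) (hC' : ∀ i, |c' i| ≤ C) (d : ℝ)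
    (hd : ∀ i, |c i - c' i| ≤ d) (i : I) (m : ℕ) : sg pf c i m ≤ sg pf c' i m + d := by
  haveI : Nonempty I := ⟨i⟩
  refine ciSup_le fun i' => ?_
  have h := cmp_le_sg pf c' C hC' i m i'
  have hd0 : 0 ≤ d := (abs_nonneg _).trans (hd i)
  unfold cmp at h ⊢
  split_ifs at h ⊢ with h1
  · have h2 := abs_sub_abs_le_abs_sub (c i') (c' i')
    linarith [hd i']
  · linarith

theorem sg_lip (c c' : I → ℝ) (C : ℝ) (hC : ∀ i, |c i| ≤ C) (hC' : ∀ i, |c' i| ≤ C) (d : ℝ)
    (hd : ∀ i, |c i - c' i| ≤ d) (i : I) (m : ℕ) : |sg pf c i m - sg pf c' i m| ≤ d := by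
  have h1 := sg_le_add pf c c' C hC' d hd i m
  have h2 := sg_le_add pf c' c C hC d (fun i => by rw [abs_sub_comm]; exact hd i) i m
  rw [abs_le]
  constructor <;> linarith

open Classical in
/-- the coefficient -/
noncomputable def psi (c : I → ℝ) (i : I) (m : ℕ) : ℝ :=
  if pf i m ≠ none then soft (c i) (sg pf c i m) else 0

theorem psi_lip (c c' : I → ℝ) (C : ℝ) (hC : ∀ i, |c i| ≤ C) (hC' : ∀ i, |c' i| ≤ C) (d : ℝ)
    (hd : ∀ i, |c i - c' i| ≤ d) (i : I) (m : ℕ) : |psi pf c i m - psi pf c' i m| ≤ 4 * d := by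
  unfold psi
  split_ifs
  · exact soft_lip _ _ _ _ _ (hd i) (sg_lip pf c c' C hC hC' d hd i m)
  · have hd0 : 0 ≤ d := (abs_nonneg _).trans (hd i)
    simpa using hd0

theorem abs_psi_le (c : I → ℝ) (i : I) (m : ℕ) : |psi pf c i m| ≤ |c i| := by
  unfold psi
  split_ifs
  · exact abs_soft_le _ _ (sg_nonneg pf c i m)
  · simp

theorem psi_none (c : I → ℝ) (i : I) (m : ℕ) (h : pf i m = none) : psi pf c i m = 0 := by
  unfold psi
  rw [if_neg (by simpa using h)]

theorem psi_unique (c : I → ℝ) (C : ℝ) (hC : ∀ i, |c i| ≤ C) (i i' : I) (m : ℕ)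
    (h : psi pf c i m ≠ 0) (h' : psi pf c i' m ≠ 0) : i = i' := by
  by_contra hne
  have hn : pf i m ≠ none := fun h0 => h (psi_none pf c i m h0)
  have hn' : pf i' m ≠ none := fun h0 => h' (psi_none pf c i' m h0)
  have h1 : ¬ |c i| ≤ sg pf c i m := by
    intro h2
    apply h
    unfold psi
    rw [if_pos hn]
    exact soft_zero _ _ h2
  have h1' : ¬ |c i'| ≤ sg pf c i' m := by
    intro h2
    apply h'
    unfold psi
    rw [if_pos hn']
    exact soft_zero _ _ h2
  have h2 := le_sg pf c C hC i m i' (fun e => hne e.symm) hn'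
  have h2' := le_sg pf c C hC i' m i hne hn
  push Not at h1 h1'
  linarith

variable (Y : Sys)

open Classical in
/-- the element at level `m` -/
noncomputable def Sm (c : I → ℝ) (m : ℕ) : E :=
  if h : ∃ i, psi pf c i m ≠ 0 then psi pf c h.choose m • Y.trm (pf h.choose) m else 0

theorem Sm_eq (c : I → ℝ) (C : ℝ) (hC : ∀ i, |c i| ≤ C) (m : ℕ) (i : I)
    (h : psi pf c i m ≠ 0) : Sm pf Y c m = psi pf c i m • Y.trm (pf i) m := by
  have hex : ∃ i, psi pf c i m ≠ 0 := ⟨i, h⟩
  unfold Sm
  rw [dif_pos hex]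
  have : hex.choose = i := psi_unique pf c C hC _ _ m hex.choose_spec h
  rw [this]

theorem Sm_zero (c : I → ℝ) (m : ℕ) (h : ∀ i, psi pf c i m = 0) : Sm pf Y c m = 0 := by
  unfold Sm
  rw [dif_neg]
  push Not
  exact h

theorem Sm_mem (c : I → ℝ) (m : ℕ) : Sm pf Y c m ∈ Y.Z := by
  unfold Sm
  split_ifs
  · exact Submodule.smul_mem _ _ (Y.trm_mem_Z _ _)
  · exact Submodule.zero_mem _

theorem Sm_level (c : I → ℝ) (m : ℕ) (ω : Om) (h : ω.1 / 2 ≠ m) : Sm pf Y c m ω = 0 := by
  unfold Sm
  split_ifs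
  · rw [E.smul_apply, Y.trm_eq_zero _ _ _ h, mul_zero]
  · rfl

theorem abs_trm_le (γ : PF) (m : ℕ) (ω : Om) : |Y.trm γ m ω| ≤ 1 := by
  cases h : γ m with
  | none => rw [Y.trm_none γ m h]; simp
  | some j => rw [Y.trm_some γ m j h]; exact Y.abs_blkFun_le _ _ _ ω

theorem abs_Sm_le (c : I → ℝ) (C : ℝ) (hC0 : 0 ≤ C) (hC : ∀ i, |c i| ≤ C) (m : ℕ) (ω : Om) :
    |Sm pf Y c m ω| ≤ C := by
  unfold Sm
  split_ifs with h
  · rw [E.smul_apply, abs_mul]
    calc |psi pf c h.choose m| * |Y.trm (pf h.choose) m ω| ≤ C * 1 :=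
          mul_le_mul ((abs_psi_le pf c _ m).trans (hC _)) (abs_trm_le Y _ _ _) (abs_nonneg _) hC0
      _ = C := mul_one C
  · simpa using hC0

theorem Sm_lip (c c' : I → ℝ) (C : ℝ) (hC : ∀ i, |c i| ≤ C) (hC' : ∀ i, |c' i| ≤ C) (d : ℝ)
    (hd0 : 0 ≤ d) (hd : ∀ i, |c i - c' i| ≤ d) (m : ℕ) (ω : Om) :
    |Sm pf Y c m ω - Sm pf Y c' m ω| ≤ 8 * d := by
  have hpl := psi_lip pf c c' C hC hC' d hd
  have hmul : ∀ (a : ℝ) (γ : PF) (b : ℝ), |a| ≤ b → |a * Y.trm γ m ω| ≤ b := by
    intro a γ b hab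
    rw [abs_mul]
    calc |a| * |Y.trm γ m ω| ≤ b * 1 :=
          mul_le_mul hab (abs_trm_le Y _ _ _) (abs_nonneg _) ((abs_nonneg _).trans hab)
      _ = b := mul_one b
  by_cases h : ∃ i, psi pf c i m ≠ 0
  · obtain ⟨i, hi⟩ := h
    rw [Sm_eq pf Y c C hC m i hi, E.smul_apply]
    by_cases h' : ∃ i, psi pf c' i m ≠ 0
    · obtain ⟨i', hi'⟩ := h'
      rw [Sm_eq pf Y c' C hC' m i' hi', E.smul_apply]
      by_cases hii : i = i'
      · subst hii
        rw [← sub_mul]
        exact hmul _ _ _ ((hpl i m).trans (by linarith))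
      · have e1 : psi pf c' i m = 0 := by
          by_contra h0
          exact hii (psi_unique pf c' C hC' _ _ m h0 hi')
        have e2 : psi pf c i' m = 0 := by
          by_contra h0
          exact hii (psi_unique pf c C hC _ _ m hi h0)
        have b1 : |psi pf c i m| ≤ 4 * d := by
          have := hpl i m
          rw [e1, sub_zero] at this
          exact this
        have b2 : |psi pf c' i' m| ≤ 4 * d := by
          have := hpl i' m
          rw [e2, zero_sub, abs_neg] at this
          exact this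
        have h3 := abs_sub (psi pf c i m * Y.trm (pf i) m ω) (psi pf c' i' m * Y.trm (pf i') m ω)
        have h4 := hmul _ (pf i) _ b1
        have h5 := hmul _ (pf i') _ b2
        linarith
    · push Not at h'
      rw [Sm_zero pf Y c' m h', E.zero_apply, sub_zero]
      have b1 : |psi pf c i m| ≤ 4 * d := by
        have := hpl i m
        rw [h' i, sub_zero] at this
        exact this
      exact (hmul _ (pf i) _ b1).trans (by linarith)
  · push Not at h
    rw [Sm_zero pf Y c m h, E.zero_apply]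
    by_cases h' : ∃ i, psi pf c' i m ≠ 0
    · obtain ⟨i', hi'⟩ := h'
      rw [Sm_eq pf Y c' C hC' m i' hi', E.smul_apply, zero_sub, abs_neg]
      have b2 : |psi pf c' i' m| ≤ 4 * d := by
        have := hpl i' m
        rw [h i', zero_sub, abs_neg] at this
        exact this
      exact (hmul _ (pf i') _ b2).trans (by linarith)
    · push Not at h'
      rw [Sm_zero pf Y c' m h', E.zero_apply, sub_zero, abs_zero]
      linarith

end

theorem Ret_proof (hQ : Stmt_Q) : Stmt_Ret := by
  classical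
  intro Y I pf had
  obtain ⟨q, hq1, hqZ, hqs, hqo, _, _⟩ := hQ Y I pf had
  -- the coefficient family of `x`
  let cf : Y.X I pf → I → ℝ := fun x i => q i x
  have hcf : ∀ x i, |cf x i| ≤ ‖x‖ := fun x i => hq1 i x
  have hcfd : ∀ x y i, |cf x i - cf y i| ≤ ‖x - y‖ := by
    intro x y i
    have := hq1 i (x - y)
    rw [map_sub] at this
    exact this
  let s : Y.X I pf → E := fun x => E.mk (fun ω => Sm pf Y (cf x) (ω.1 / 2) ω) ‖x‖
    (fun ω => abs_Sm_le pf Y (cf x) ‖x‖ (norm_nonneg x) (hcf x) _ ω)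
  have hs_apply : ∀ x ω, s x ω = Sm pf Y (cf x) (ω.1 / 2) ω := fun x ω => rfl
  have hs_lip : ∀ x y, ‖s x - s y‖ ≤ 8 * ‖x - y‖ := by
    intro x y
    rw [E.norm_le (by positivity)]
    intro ω
    rw [E.sub_apply, hs_apply, hs_apply]
    exact Sm_lip pf Y (cf x) (cf y) (max ‖x‖ ‖y‖) (fun i => (hcf x i).trans (le_max_left _ _))
      (fun i => (hcf y i).trans (le_max_right _ _)) ‖x - y‖ (norm_nonneg _) (hcfd x y) _ ω
  let r0 : Y.X I pf → E := fun x => (x : E) - s x
  have hr_lip : ∀ x y, ‖r0 x - r0 y‖ ≤ 9 * ‖x - y‖ := by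
    intro x y
    have h1 : r0 x - r0 y = ((x - y : Y.X I pf) : E) - (s x - s y) := by
      show ((x : E) - s x) - ((y : E) - s y) = ((x : E) - (y : E)) - (s x - s y)
      abel
    rw [h1]
    have h2 := norm_sub_le ((x - y : Y.X I pf) : E) (s x - s y)
    have h3 : ‖((x - y : Y.X I pf) : E)‖ = ‖x - y‖ := rfl
    have h4 := hs_lip x y
    linarith
  -- the coefficients of the elements of the dense subspace
  have hcomb : ∀ (z : E) (hz : z ∈ Y.Z) (c : I →₀ ℝ) (x : Y.X I pf),
      (x : E) = z + c.sum (fun i a => a • Y.xv (pf i)) → ∀ i, q i x = c i := by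
    intro z hz c x hx i
    have h1 : x = Y.incl I pf ⟨z, hz⟩ + c.sum (fun i a => a • Y.xvX I pf i) := by
      apply Subtype.ext
      rw [hx]
      show z + c.sum (fun i a => a • Y.xv (pf i))
        = z + ((c.sum (fun i a => a • Y.xvX I pf i) : Y.X I pf) : E)
      congr 1
      rw [Finsupp.sum, Finsupp.sum, Submodule.coe_sum]
      rfl
    rw [h1, map_add, hqZ, zero_add, Finsupp.sum, map_sum]
    have h2 : ∀ i' ∈ c.support, q i (c i' • Y.xvX I pf i') = if i = i' then c i' else 0 := by
      intro i' _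
      rw [map_smul, smul_eq_mul]
      split_ifs with h
      · rw [← h, hqs i, mul_one]
      · rw [hqo i i' h, mul_zero]
    rw [Finset.sum_congr rfl h2, Finset.sum_ite_eq]
    split_ifs with h
    · rfl
    · exact (Finsupp.notMem_support_iff.1 h).symm
  -- the retraction maps the dense subspace into `Z`
  have hmem0 : ∀ (z : E) (_ : z ∈ Y.Z) (c : I →₀ ℝ) (x : Y.X I pf),
      (x : E) = z + c.sum (fun i a => a • Y.xv (pf i)) → r0 x ∈ Y.Z := by
    intro z hz c x hx
    have hcx : ∀ i, cf x i = c i := hcomb z hz c x hx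
    have hB := AD.overlap had c.support
    let B : Finset ℕ := hB.toFinset
    have hkey : r0 x = z - ∑ m ∈ B, (Sm pf Y (cf x) m
        - ∑ i ∈ c.support, c i • Y.trm (pf i) m) := by
      apply E.ext
      intro ω
      show (x : E) ω - s x ω = z ω - (∑ m ∈ B, (Sm pf Y (cf x) m
        - ∑ i ∈ c.support, c i • Y.trm (pf i) m)) ω
      rw [hx, E.add_apply, Sys.sum_xv_apply, hs_apply, E.sum_apply]
      have h1 : ∑ m ∈ B, (Sm pf Y (cf x) m - ∑ i ∈ c.support, c i • Y.trm (pf i) m) ω
          = if ω.1 / 2 ∈ B then Sm pf Y (cf x) (ω.1 / 2) ω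
            - ∑ i ∈ c.support, c i * Y.trm (pf i) (ω.1 / 2) ω else 0 := by
        rw [← Finset.sum_ite_eq B (ω.1 / 2) (fun m => Sm pf Y (cf x) m ω
            - ∑ i ∈ c.support, c i * Y.trm (pf i) m ω)]
        refine Finset.sum_congr rfl fun m _ => ?_
        rw [E.sub_apply, E.sum_apply]
        simp only [E.smul_apply]
        split_ifs with h
        · rfl
        · rw [Sm_level pf Y _ _ _ h]
          have : ∑ i ∈ c.support, c i * Y.trm (pf i) m ω = 0 := by
            refine Finset.sum_eq_zero fun i _ => ?_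
            rw [Y.trm_eq_zero _ _ _ h, mul_zero]
          rw [this, sub_zero]
      rw [h1]
      split_ifs with hin
      · ring
      · have hin' : ¬ ∃ i ∈ c.support, ∃ i' ∈ c.support, i ≠ i' ∧ pf i (ω.1 / 2) ≠ none ∧
            pf i' (ω.1 / 2) ≠ none := fun h => hin (hB.mem_toFinset.2 h)
        push Not at hin'
        have h2 : Sm pf Y (cf x) (ω.1 / 2) ω
            = ∑ i ∈ c.support, c i * Y.trm (pf i) (ω.1 / 2) ω := by
          by_cases hex : ∃ i ∈ c.support, pf i (ω.1 / 2) ≠ none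
          · obtain ⟨i, hi, hin2⟩ := hex
            have h3 : ∑ i ∈ c.support, c i * Y.trm (pf i) (ω.1 / 2) ω
                = c i * Y.trm (pf i) (ω.1 / 2) ω := by
              refine Finset.sum_eq_single_of_mem i hi fun i' hi' hne => ?_
              have h4 := hin' i hi i' hi' (Ne.symm hne) hin2
              rw [Y.trm_none (pf i') _ h4]
              simp
            rw [h3]
            have hsg : sg pf (cf x) i (ω.1 / 2) = 0 := by
              apply le_antisymm _ (sg_nonneg pf _ _ _)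
              haveI : Nonempty I := ⟨i⟩
              refine ciSup_le fun i' => ?_
              unfold cmp
              split_ifs with h5
              · rw [hcx i']
                by_cases hs' : i' ∈ c.support
                · exact absurd (hin' i hi i' hs' (Ne.symm h5.1) hin2) h5.2
                · rw [Finsupp.notMem_support_iff.1 hs', abs_zero]
              · exact le_refl _
            have hpsi : psi pf (cf x) i (ω.1 / 2) = c i := by
              unfold psi
              rw [if_pos hin2, hsg, soft_s0, hcx i]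
            have hpsi0 : psi pf (cf x) i (ω.1 / 2) ≠ 0 := by
              rw [hpsi]; exact Finsupp.mem_support_iff.1 hi
            rw [Sm_eq pf Y (cf x) ‖x‖ (hcf x) _ i hpsi0, E.smul_apply, hpsi]
          · push Not at hex
            have h0 : ∑ i ∈ c.support, c i * Y.trm (pf i) (ω.1 / 2) ω = 0 := by
              refine Finset.sum_eq_zero fun i hi => ?_
              rw [Y.trm_none (pf i) _ (hex i hi)]
              simp
            rw [h0, Sm_zero pf Y (cf x) _ ?_]
            · rfl
            · intro i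
              by_cases hs' : i ∈ c.support
              · exact psi_none pf _ _ _ (hex i hs')
              · have h5 := abs_psi_le pf (cf x) i (ω.1 / 2)
                rw [hcx i, Finsupp.notMem_support_iff.1 hs', abs_zero] at h5
                exact abs_eq_zero.1 (le_antisymm h5 (abs_nonneg _))
        rw [h2]
        ring
    rw [hkey]
    refine Submodule.sub_mem _ hz (Submodule.sum_mem _ fun m _ => ?_)
    refine Submodule.sub_mem _ (Sm_mem pf Y _ _) (Submodule.sum_mem _ fun i _ => ?_)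
    exact Submodule.smul_mem _ _ (Y.trm_mem_Z _ _)
  have hmem : ∀ x : Y.X I pf, r0 x ∈ Y.Z := by
    intro x
    have hcl : IsClosed (Y.Z : Set E) := Submodule.isClosed_topologicalClosure _
    have : r0 x ∈ closure (Y.Z : Set E) := by
      rw [Metric.mem_closure_iff]
      intro ε hε
      obtain ⟨z, hz, c, hc⟩ := Sys.X_dense I pf (x : E) x.2 (ε / 9) (by positivity)
      have hx' : z + c.sum (fun i a => a • Y.xv (pf i)) ∈ Y.X I pf := by
        refine Submodule.add_mem _ (Y.Z_le_X I pf hz) (Submodule.sum_mem _ fun i _ => ?_)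
        exact Submodule.smul_mem _ _ (Y.xv_mem I pf i)
      refine ⟨r0 ⟨_, hx'⟩, hmem0 z hz c ⟨_, hx'⟩ rfl, ?_⟩
      rw [dist_eq_norm]
      have h1 := hr_lip x ⟨_, hx'⟩
      have h2 : ‖x - (⟨_, hx'⟩ : Y.X I pf)‖ < ε / 9 := hc
      linarith
    rwa [hcl.closure_eq] at this
  refine ⟨9, fun x => ⟨r0 x, hmem x⟩, ?_, ?_⟩
  · refine LipschitzWith.of_dist_le_mul fun x y => ?_
    rw [dist_eq_norm, dist_eq_norm]
    exact hr_lip x y
  · intro z
    apply Subtype.ext
    show r0 (Y.incl I pf z) = (z : E)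
    have hz0 : ∀ i, cf (Y.incl I pf z) i = 0 := fun i => hqZ i z
    have h1 : s (Y.incl I pf z) = 0 := by
      apply E.ext
      intro ω
      rw [hs_apply, Sm_zero]
      intro i
      have h5 := abs_psi_le pf (cf (Y.incl I pf z)) i (ω.1 / 2)
      rw [hz0 i, abs_zero] at h5
      exact abs_eq_zero.1 (le_antisymm h5 (abs_nonneg _))
    show ((Y.incl I pf z : Y.X I pf) : E) - s (Y.incl I pf z) = (z : E)
    rw [h1, sub_zero]
    rfl

end SLA
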