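import Pool.Agent.SLA.Stmts

/-!
# MP_91c4ba_an : existence of a Davie system from fields of characteristic two (helper41)
-/

set_option autoImplicit false

namespace SLA

open Finset

/-- a real valued sign character of the additive group of a field of characteristic two. -/
theorem exists_psi (K : Type) [Field K] [Algebra (ZMod 2) K] :
    ∃ ψ : AddChar K ℝ, ψ ≠ 1 ∧ ∀ x, |ψ x| ≤ 1 := by
  classical
  have h1 : ¬ ∀ φ : Module.Dual (ZMod 2) K, φ (1 : K) = 0 := by
    rw [Module.forall_dual_apply_eq_zero_iff]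
    exact one_ne_zero
  push Not at h1
  obtain ⟨φ, hφ⟩ := h1
  have key : ∀ a b : ZMod 2, (if a + b = 0 then (1 : ℝ) else -1)
      = (if a = 0 then (1 : ℝ) else -1) * (if b = 0 then (1 : ℝ) else -1) := by
    have hd : ∀ a b : ZMod 2, (a + b = 0 ↔ (a = 0 ↔ b = 0)) := by decide
    intro a b
    have := hd a b
    by_cases ha : a = 0
    · by_cases hb : b = 0
      · rw [if_pos (this.2 (by tauto)), if_pos ha, if_pos hb]; norm_num
      · rw [if_neg (fun h => by have := this.1 h; tauto), if_pos ha, if_neg hb]; norm_num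
    · by_cases hb : b = 0
      · rw [if_neg (fun h => by have := this.1 h; tauto), if_neg ha, if_pos hb]; norm_num
      · rw [if_pos (this.2 (by tauto)), if_neg ha, if_neg hb]; norm_num
  refine ⟨{ toFun := fun x => if φ x = 0 then (1 : ℝ) else -1
            map_zero_eq_one' := by simp
            map_add_eq_mul' := fun x y => by
              change (if φ (x + y) = 0 then (1 : ℝ) else -1) = _
              rw [map_add]
              exact key _ _ }, ?_, ?_⟩
  · intro h
    have h2 := DFunLike.congr_fun h (1 : K)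
    change (if φ (1 : K) = 0 then (1 : ℝ) else -1) = 1 at h2
    rw [if_neg hφ] at h2
    norm_num at h2
  · intro x
    change |(if φ x = 0 then (1 : ℝ) else -1)| ≤ 1
    split_ifs <;> simp

section layer

variable {K : Type} [Field K] [Fintype K] [DecidableEq K] [CharP K 2] (ψ : AddChar K ℝ)

/-- the character of `K^3` with parameter `a`. -/
noncomputable def chr (a g : K × K × K) : ℝ :=
  ψ (g.1 * a.1) * (ψ (g.2.1 * a.2.1) * ψ (g.2.2 * a.2.2))

theorem chr_le (hψ : ∀ x, |ψ x| ≤ 1) (a g : K × K × K) : |chr ψ a g| ≤ 1 := by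
  unfold chr
  rw [abs_mul, abs_mul]
  have h1 := hψ (g.1 * a.1)
  have h2 := hψ (g.2.1 * a.2.1)
  have h3 := hψ (g.2.2 * a.2.2)
  exact mul_le_one₀ h1 (by positivity) (mul_le_one₀ h2 (by positivity) h3)

theorem psi_sum (hψ : ψ ≠ 1) (b : K) :
    ∑ x : K, ψ (x * b) = if b = 0 then (Fintype.card K : ℝ) else 0 := by
  rw [AddChar.sum_mulShift b (AddChar.IsPrimitive.of_ne_one hψ)]
  split_ifs <;> simp

theorem char2_add_eq_zero (a b : K) : a + b = 0 ↔ a = b := by
  rw [← CharTwo.sub_eq_add, sub_eq_zero]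

/-- orthogonality of characters. -/
theorem chr_orth (hψ : ψ ≠ 1) (a b : K × K × K) :
    ∑ g : K × K × K, chr ψ a g * chr ψ b g
      = if a = b then ((Fintype.card (K × K × K) : ℕ) : ℝ) else 0 := by
  have e1 : ∀ g : K × K × K, chr ψ a g * chr ψ b g
      = ψ (g.1 * (a.1 + b.1)) * (ψ (g.2.1 * (a.2.1 + b.2.1)) * ψ (g.2.2 * (a.2.2 + b.2.2))) := by
    intro g
    unfold chr
    rw [mul_add, mul_add, mul_add, AddChar.map_add_eq_mul, AddChar.map_add_eq_mul,
      AddChar.map_add_eq_mul]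
    ring
  rw [Finset.sum_congr rfl (fun g _ => e1 g), Fintype.sum_prod_type]
  simp only [Fintype.sum_prod_type, ← Finset.mul_sum, ← Finset.sum_mul]
  rw [psi_sum ψ hψ, psi_sum ψ hψ, psi_sum ψ hψ]
  simp only [char2_add_eq_zero]
  by_cases h : a = b
  · subst h
    simp only [if_true]
    rw [Fintype.card_prod, Fintype.card_prod]
    push_cast
    ring
  · rw [if_neg h]
    by_cases h1 : a.1 = b.1
    · by_cases h2 : a.2.1 = b.2.1
      · have h3 : a.2.2 ≠ b.2.2 := fun h3 => h (Prod.ext h1 (Prod.ext h2 h3))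
        rw [if_neg h3]; ring
      · rw [if_neg h2]; ring
    · rw [if_neg h1]; ring

/-- the quadratic sum. -/
theorem quad_sum (hψ : ψ ≠ 1) (hψ1 : ∀ x, |ψ x| ≤ 1) (c : K) (g h : K × K × K) :
    (g = h → ∑ z : K × K, chr ψ (z.1, z.2, z.1 * z.2 + c) g * chr ψ (z.1, z.2, z.1 * z.2 + c) h
      = ((Fintype.card K : ℕ) : ℝ) ^ 2) ∧
    (g ≠ h → |∑ z : K × K, chr ψ (z.1, z.2, z.1 * z.2 + c) g
      * chr ψ (z.1, z.2, z.1 * z.2 + c) h| ≤ ((Fintype.card K : ℕ) : ℝ)) := by
  set u1 := g.1 + h.1 with hu1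
  set u2 := g.2.1 + h.2.1 with hu2
  set u3 := g.2.2 + h.2.2 with hu3
  have e1 : ∀ z : K × K, chr ψ (z.1, z.2, z.1 * z.2 + c) g * chr ψ (z.1, z.2, z.1 * z.2 + c) h
      = ψ (c * u3) * (ψ (z.1 * u1) * ψ (z.2 * (u2 + z.1 * u3))) := by
    intro z
    unfold chr
    simp only
    rw [hu1, hu2, hu3]
    simp only [← AddChar.map_add_eq_mul]
    congr 1
    ring
  have e2 : ∑ z : K × K, chr ψ (z.1, z.2, z.1 * z.2 + c) g * chr ψ (z.1, z.2, z.1 * z.2 + c) h
      = ψ (c * u3) * ∑ x : K, ψ (x * u1) * (if u2 + x * u3 = 0 then (Fintype.card K : ℝ) else 0) := by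
    rw [Finset.sum_congr rfl (fun z _ => e1 z), ← Finset.mul_sum, Fintype.sum_prod_type]
    congr 1
    refine Finset.sum_congr rfl fun x _ => ?_
    simp only
    rw [← Finset.mul_sum, psi_sum ψ hψ]
  constructor
  · intro hgh
    have z1 : u1 = 0 := by rw [hu1, hgh]; exact CharTwo.add_self_eq_zero _
    have z2 : u2 = 0 := by rw [hu2, hgh]; exact CharTwo.add_self_eq_zero _
    have z3 : u3 = 0 := by rw [hu3, hgh]; exact CharTwo.add_self_eq_zero _
    rw [e2, z1, z2, z3]
    simp only [mul_zero, add_zero, if_true, AddChar.map_zero_eq_one, one_mul, Finset.sum_const,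
      Finset.card_univ, nsmul_eq_mul]
    ring
  · intro hgh
    rw [e2, abs_mul]
    have hcard : (0 : ℝ) ≤ (Fintype.card K : ℝ) := by positivity
    refine le_trans (mul_le_of_le_one_left (abs_nonneg _) (hψ1 _)) ?_
    by_cases h3 : u3 = 0
    · rw [h3]
      simp only [mul_zero, add_zero]
      by_cases h2 : u2 = 0
      · have h1 : u1 ≠ 0 := by
          intro h1
          apply hgh
          rw [hu1, char2_add_eq_zero] at h1
          rw [hu2, char2_add_eq_zero] at h2
          rw [hu3, char2_add_eq_zero] at h3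
          exact Prod.ext h1 (Prod.ext h2 h3)
        rw [← Finset.sum_mul, psi_sum ψ hψ, if_neg h1, zero_mul, abs_zero]
        exact hcard
      · simp only [if_neg h2, mul_zero, Finset.sum_const_zero, abs_zero]
        exact hcard
    · -- exactly one x
      have e3 : ∀ x : K, (ψ (x * u1) * (if u2 + x * u3 = 0 then (Fintype.card K : ℝ) else 0))
          = if x = u2 / u3 then ψ (x * u1) * (Fintype.card K : ℝ) else 0 := by
        intro x
        have : u2 + x * u3 = 0 ↔ x = u2 / u3 := by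
          rw [char2_add_eq_zero, eq_div_iff h3]
          exact ⟨fun h => h.symm, fun h => h.symm⟩
        by_cases hx : x = u2 / u3
        · rw [if_pos (this.2 hx), if_pos hx]
        · rw [if_neg (fun hh => hx (this.1 hh)), if_neg hx, mul_zero]
      rw [Finset.sum_congr rfl (fun x _ => e3 x), Finset.sum_ite_eq' Finset.univ (u2 / u3),
        if_pos (Finset.mem_univ _), abs_mul, abs_of_nonneg hcard]
      exact mul_le_of_le_one_left hcard (hψ1 _)

end layer

/-- transport of a function of two finite variables to `ℕ`. -/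
noncomputable def extN {P G : Type} {N M : ℕ} (eP : Fin N ≃ P) (eG : Fin M ≃ G) (f : P → G → ℝ)
    (r g : ℕ) : ℝ :=
  if h : r < N ∧ g < M then f (eP ⟨r, h.1⟩) (eG ⟨g, h.2⟩) else 0

theorem extN_eq {P G : Type} {N M : ℕ} (eP : Fin N ≃ P) (eG : Fin M ≃ G) (f : P → G → ℝ)
    (r g : ℕ) (hr : r < N) (hg : g < M) : extN eP eG f r g = f (eP ⟨r, hr⟩) (eG ⟨g, hg⟩) := by
  unfold extN
  rw [dif_pos ⟨hr, hg⟩]

theorem extN_le {P G : Type} {N M : ℕ} (eP : Fin N ≃ P) (eG : Fin M ≃ G) (f : P → G → ℝ)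
    (hf : ∀ a b, |f a b| ≤ 1) (r g : ℕ) : |extN eP eG f r g| ≤ 1 := by
  unfold extN
  split_ifs
  · exact hf _ _
  · simp

theorem extN_sum_right {P P' G : Type} [Fintype G] {N N' M : ℕ} (eP : Fin N ≃ P) (eP' : Fin N' ≃ P')
    (eG : Fin M ≃ G) (f : P → G → ℝ) (f' : P' → G → ℝ) (r r' : ℕ) (hr : r < N) (hr' : r' < N') :
    ∑ g ∈ range M, extN eP eG f r g * extN eP' eG f' r' g
      = ∑ g : G, f (eP ⟨r, hr⟩) g * f' (eP' ⟨r', hr'⟩) g := by
  rw [Finset.sum_range, ← Equiv.sum_comp eG]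
  refine Finset.sum_congr rfl fun g _ => ?_
  rw [extN_eq eP eG f r g hr g.2, extN_eq eP' eG f' r' g hr' g.2]

theorem extN_sum_left {P G : Type} [Fintype P] {N M : ℕ} (eP : Fin N ≃ P) (eG : Fin M ≃ G)
    (f : P → G → ℝ) (g h : ℕ) (hg : g < M) (hh : h < M) :
    ∑ r ∈ range N, extN eP eG f r g * extN eP eG f r h
      = ∑ r : P, f r (eG ⟨g, hg⟩) * f r (eG ⟨h, hh⟩) := by
  rw [Finset.sum_range, ← Equiv.sum_comp eP]
  refine Finset.sum_congr rfl fun r _ => ?_
  rw [extN_eq eP eG f r g r.2 hg, extN_eq eP eG f r h r.2 hh]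

/-- one layer of the system. -/
theorem layer_exists (m : ℕ) (hm : 5 ≤ m) : ∃ sg tg : ℕ → ℕ → ℝ,
    (∀ r g, |sg r g| ≤ 1) ∧ (∀ p g, |tg p g| ≤ 1) ∧
    (∀ r r', r < 4 ^ m → r' < 4 ^ m → ∑ g ∈ range (8 ^ m), sg r g * sg r' g
      = if r = r' then ((8 ^ m : ℕ) : ℝ) else 0) ∧
    (∀ p p', p < 4 ^ (m + 2) → p' < 4 ^ (m + 2) → ∑ g ∈ range (8 ^ m), tg p g * tg p' g
      = if p = p' then ((8 ^ m : ℕ) : ℝ) else 0) ∧
    (∀ r p, r < 4 ^ m → p < 4 ^ (m + 2) → ∑ g ∈ range (8 ^ m), sg r g * tg p g = 0) ∧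
    (∀ g h, g < 8 ^ m → h < 8 ^ m →
      |(∑ p ∈ range (4 ^ (m + 2)), tg p g * tg p h) / ((4 ^ (m + 2) : ℕ) : ℝ)
        - (∑ r ∈ range (4 ^ m), sg r g * sg r h) / ((4 ^ m : ℕ) : ℝ)| ≤ 2 / 2 ^ m) := by
  classical
  haveI : Fact (Nat.Prime 2) := ⟨Nat.prime_two⟩
  set K := GaloisField 2 m with hK
  haveI : Fintype K := Fintype.ofFinite K
  have hcard : Fintype.card K = 2 ^ m := by
    rw [← Nat.card_eq_fintype_card]
    exact GaloisField.card 2 m (by omega)
  obtain ⟨ψ, hψ, hψ1⟩ := exists_psi K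
  -- sixteen nonzero elements
  have hemb : Nonempty (Fin 16 ↪ {x : K // x ≠ 0}) := by
    apply Function.Embedding.nonempty_of_card_le
    rw [Fintype.card_fin, Fintype.card_subtype_compl, hcard]
    have h1 : Fintype.card {x : K // x = 0} = 1 := Fintype.card_subtype_eq 0
    rw [h1]
    have h2 : 2 ^ 5 ≤ 2 ^ m := Nat.pow_le_pow_right (by norm_num) hm
    omega
  obtain ⟨c⟩ := hemb
  have cP : Fintype.card (K × K) = 4 ^ m := by
    rw [Fintype.card_prod, hcard, ← Nat.mul_pow]
  have cG : Fintype.card (K × K × K) = 8 ^ m := by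
    rw [Fintype.card_prod, Fintype.card_prod, hcard, ← Nat.mul_pow, ← Nat.mul_pow]
  have cQ : Fintype.card ((K × K) × Fin 16) = 4 ^ (m + 2) := by
    rw [Fintype.card_prod, cP, Fintype.card_fin, pow_add]
    norm_num
  let eP : Fin (4 ^ m) ≃ K × K := (Fintype.equivFinOfCardEq cP).symm
  let eG : Fin (8 ^ m) ≃ K × K × K := (Fintype.equivFinOfCardEq cG).symm
  let eQ : Fin (4 ^ (m + 2)) ≃ (K × K) × Fin 16 := (Fintype.equivFinOfCardEq cQ).symm
  let f : K × K → K × K × K → ℝ := fun z g => chr ψ (z.1, z.2, z.1 * z.2 + 0) g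
  let t : (K × K) × Fin 16 → K × K × K → ℝ := fun z g =>
    chr ψ (z.1.1, z.1.2, z.1.1 * z.1.2 + (c z.2 : K)) g
  have hf1 : ∀ a b, |f a b| ≤ 1 := fun a b => chr_le ψ hψ1 _ _
  have ht1 : ∀ a b, |t a b| ≤ 1 := fun a b => chr_le ψ hψ1 _ _
  refine ⟨extN eP eG f, extN eQ eG t, extN_le _ _ _ hf1, extN_le _ _ _ ht1, ?_, ?_, ?_, ?_⟩
  · intro r r' hr hr'
    rw [extN_sum_right eP eP eG f f r r' hr hr', chr_orth ψ hψ, cG]
    congr 1
    apply propext
    constructor
    · intro h
      have h1 := congrArg Prod.fst h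
      have h2 := congrArg (fun x => x.2.1) h
      have h3 := eP.injective (Prod.ext h1 h2)
      simpa using h3
    · intro h
      subst h
      rfl
  · intro p p' hp hp'
    rw [extN_sum_right eQ eQ eG t t p p' hp hp', chr_orth ψ hψ, cG]
    congr 1
    apply propext
    constructor
    · intro h
      have h1 := congrArg Prod.fst h
      have h2 := congrArg (fun x => x.2.1) h
      have h3 := congrArg (fun x => x.2.2) h
      simp only at h1 h2 h3
      rw [h1, h2] at h3
      have h4 := add_left_cancel h3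
      have h5 := c.injective (Subtype.ext h4)
      have h6 := eQ.injective (Prod.ext (Prod.ext h1 h2) h5)
      simpa using h6
    · intro h
      subst h
      rfl
  · intro r p hr hp
    rw [extN_sum_right eP eQ eG f t r p hr hp, chr_orth ψ hψ]
    rw [if_neg]
    intro h
    have h1 := congrArg Prod.fst h
    have h2 := congrArg (fun x => x.2.1) h
    have h3 := congrArg (fun x => x.2.2) h
    simp only at h1 h2 h3
    rw [h1, h2] at h3
    have h4 := add_left_cancel h3
    exact (c (eQ ⟨p, hp⟩).2).2 h4.symm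
  · intro g h hg hh
    rw [extN_sum_left eQ eG t g h hg hh, extN_sum_left eP eG f g h hg hh]
    set a := eG ⟨g, hg⟩
    set b := eG ⟨h, hh⟩
    have hq : ((Fintype.card K : ℕ) : ℝ) = 2 ^ m := by rw [hcard]; push_cast; rfl
    have h4 : ((4 ^ m : ℕ) : ℝ) = (2 ^ m) * (2 ^ m) := by
      push_cast
      rw [← mul_pow]; norm_num
    have h16 : ((4 ^ (m + 2) : ℕ) : ℝ) = 16 * ((2 ^ m) * (2 ^ m)) := by
      push_cast
      rw [pow_add, ← mul_pow]; norm_num; ring
    have hq0 : (0 : ℝ) < 2 ^ m := by positivity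
    have hts : ∑ p : (K × K) × Fin 16, t p a * t p b
        = ∑ i : Fin 16, ∑ z : K × K, chr ψ (z.1, z.2, z.1 * z.2 + (c i : K)) a
          * chr ψ (z.1, z.2, z.1 * z.2 + (c i : K)) b := by
      rw [Fintype.sum_prod_type_right]
    by_cases hab : a = b
    · have e1 : ∑ p : (K × K) × Fin 16, t p a * t p b = 16 * ((2 : ℝ) ^ m) ^ 2 := by
        rw [hts, Finset.sum_congr rfl (fun i _ => (quad_sum ψ hψ hψ1 (c i : K) a b).1 hab)]
        rw [Finset.sum_const, Finset.card_univ, Fintype.card_fin, nsmul_eq_mul, hq]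
        norm_num
      have e2 : ∑ r : K × K, f r a * f r b = ((2 : ℝ) ^ m) ^ 2 := by
        have := (quad_sum ψ hψ hψ1 0 a b).1 hab
        rw [hq] at this
        exact this
      rw [e1, e2, h4, h16]
      have : 16 * ((2 : ℝ) ^ m) ^ 2 / (16 * (2 ^ m * 2 ^ m)) - ((2 : ℝ) ^ m) ^ 2 / (2 ^ m * 2 ^ m)
          = 0 := by
        field_simp
        ring
      rw [this, abs_zero]
      positivity
    · have e1 : |∑ p : (K × K) × Fin 16, t p a * t p b| ≤ 16 * (2 : ℝ) ^ m := by
        rw [hts]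
        refine (abs_sum_le_sum_abs _ _).trans ?_
        refine (Finset.sum_le_sum (fun i _ => (quad_sum ψ hψ hψ1 (c i : K) a b).2 hab)).trans ?_
        rw [Finset.sum_const, Finset.card_univ, Fintype.card_fin, nsmul_eq_mul, hq]
        norm_num
      have e2 : |∑ r : K × K, f r a * f r b| ≤ (2 : ℝ) ^ m := by
        have := (quad_sum ψ hψ hψ1 0 a b).2 hab
        rw [hq] at this
        exact this
      refine (abs_sub _ _).trans ?_
      rw [abs_div, abs_div, h4, h16, abs_of_pos (by positivity : (0 : ℝ) < 16 * (2 ^ m * 2 ^ m)),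
        abs_of_pos (by positivity : (0 : ℝ) < 2 ^ m * 2 ^ m)]
      have e3 : |∑ p : (K × K) × Fin 16, t p a * t p b| / (16 * (2 ^ m * 2 ^ m)) ≤ 1 / 2 ^ m := by
        rw [div_le_div_iff₀ (by positivity) (by positivity)]
        nlinarith
      have e4 : |∑ r : K × K, f r a * f r b| / (2 ^ m * 2 ^ m) ≤ 1 / 2 ^ m := by
        rw [div_le_div_iff₀ (by positivity) (by positivity)]
        nlinarith
      have e5 : (2 : ℝ) / 2 ^ m = 1 / 2 ^ m + 1 / 2 ^ m := by ring
      rw [e5]
      linarith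

theorem Sys_proof : Stmt_Sys := by
  have h := fun n : ℕ => layer_exists (n + 5) (by omega)
  choose sg tg h1 h2 h3 h4 h5 h6 using h
  refine ⟨{
    N := fun n => 4 ^ (n + 5)
    M := fun n => match n with
      | 0 => 1
      | k + 1 => 8 ^ (k + 5)
    sig := sg
    tau := fun n => match n with
      | 0 => fun _ _ => 0
      | k + 1 => tg k
    eps := fun n => 2 / 2 ^ (n + 5)
    N_pos := fun n => by positivity
    M_pos := fun n => by
      cases n with
      | zero => exact Nat.one_pos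
      | succ k => exact Nat.pow_pos (by norm_num)
    sig_le := h1
    tau_le := fun n p g => by
      cases n with
      | zero => simp
      | succ k => exact h2 k p g
    sig_orth := fun n r r' hr hr' => h3 n r r' hr hr'
    tau_orth := fun n p p' hp hp' => h4 n p p' hp hp'
    cross := fun n r p hr hp => h5 n r p hr hp
    ker := fun n g h hg hh => h6 n g h hg hh
    invN := fun n => ?_
    invN2 := fun n => ?_
    summable := ?_ }⟩
  · push_cast
    rw [div_le_div_iff₀ (by positivity) (by positivity)]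
    have : (2 : ℝ) ^ (n + 5) ≤ 4 ^ (n + 5) := pow_le_pow_left₀ (by norm_num) (by norm_num) _
    have h0 : (0 : ℝ) < 4 ^ (n + 5) := by positivity
    linarith
  · push_cast
    rw [div_le_div_iff₀ (by positivity) (by positivity)]
    have a1 : (2 : ℝ) ^ (n + 5) ≤ 4 ^ (n + 5) := pow_le_pow_left₀ (by norm_num) (by norm_num) _
    have a2 : (4 : ℝ) ^ (n + 5) ≤ 4 ^ (n + 2 + 5) := pow_le_pow_right₀ (by norm_num) (by omega)
    have h0 : (0 : ℝ) < 4 ^ (n + 2 + 5) := by positivity
    linarith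
  · have : (fun n : ℕ => (2 : ℝ) / 2 ^ (n + 5)) = fun n : ℕ => (1 / 16 : ℝ) * (1 / 2) ^ n := by
      funext n
      rw [pow_add, one_div_pow]
      field_simp
      norm_num
    rw [this]
    exact (summable_geometric_of_lt_one (by norm_num) (by norm_num)).mul_left _

end SLA
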