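import Pool.Agent.SLA.Stmts
import Pool.Agent.SLA.Basic

/-!
# MP_91c4ba_an : the trace estimate (helper41)
-/

set_option autoImplicit false

namespace SLA

open Finset

variable (Y : Sys)

/-- the second form of `alpha^{n+1}_{p,r}` on `Z`. -/
noncomputable def Sys.alt (n p r : ℕ) : E →L[ℝ] ℝ :=
  (1 / (Y.M (n + 1) : ℝ)) • ∑ g ∈ Finset.range (Y.M (n + 1)), Y.tau (n + 1) p g • ev (n + 1, r, g)

theorem Sys.alt_apply (n p r : ℕ) (f : E) :
    Y.alt n p r f = (1 / (Y.M (n + 1) : ℝ)) *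
      ∑ g ∈ range (Y.M (n + 1)), Y.tau (n + 1) p g * f (n + 1, r, g) := by
  simp [Sys.alt, ev_apply]

theorem Sys.blk_invalid (m p' r' : ℕ) (h : ¬ (p' < Y.N (m + 1) ∧ r' < Y.N m)) :
    Y.blk m p' r' = 0 := by
  ext ω
  rw [Sys.blk_apply]
  unfold Sys.blkFun
  rw [if_neg h]
  rfl

theorem Sys.alt_blk (n p r m p' r' : ℕ) (hp : p < Y.N (n + 2)) (hr : r < Y.N (n + 1)) :
    Y.alt n p r (Y.blk m p' r') = Y.alpha (n + 1) p r (Y.blk m p' r') := by
  by_cases hv : p' < Y.N (m + 1) ∧ r' < Y.N m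
  swap
  · rw [Y.blk_invalid m p' r' hv, map_zero, map_zero]
  have hM := Y.M_pos' (n + 1)
  by_cases hm : m = n + 1
  · subst hm
    rw [Y.alpha_blk (n + 1) p r p' r' hr hv.1 hv.2, Y.alt_apply]
    have h1 : ∀ g ∈ range (Y.M (n + 1)), Y.tau (n + 1) p g * Y.blk (n + 1) p' r' (n + 1, r, g)
        = if r = r' then Y.tau (n + 1) p g * Y.tau (n + 1) p' g else 0 := by
      intro g hg
      rw [Sys.blk_apply]
      unfold Sys.blkFun
      rw [mem_range] at hg
      rw [if_pos hv]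
      by_cases h : r = r'
      · simp [h, hg]
      · simp [h]
    rw [sum_congr rfl h1]
    by_cases h : r = r'
    · simp only [h, if_true, and_true]
      rw [Y.tau_orth n p p' hp hv.1]
      by_cases h2 : p = p'
      · simp only [h2, if_true]; field_simp
      · simp [h2]
    · simp [h]
  · rw [Y.alpha_blk_ne (n + 1) m p r p' r' hr (fun h => hm h.symm), Y.alt_apply]
    by_cases hm2 : m = n
    · subst hm2
      have h1 : ∀ g ∈ range (Y.M (m + 1)), Y.tau (m + 1) p g * Y.blk m p' r' (m + 1, r, g)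
          = if r = p' then Y.sig m r' g * Y.tau (m + 1) p g else 0 := by
        intro g hg
        rw [Sys.blk_apply]
        unfold Sys.blkFun
        rw [mem_range] at hg
        rw [if_pos hv]
        have : ¬ (m + 1 = m ∧ r = r' ∧ g < Y.M m) := by omega
        rw [if_neg this]
        by_cases h : r = p'
        · simp [h, hg, mul_comm]
        · simp [h]
      rw [sum_congr rfl h1]
      by_cases h : r = p'
      · simp only [h, if_true]
        rw [Y.cross m r' p hv.2 hp, mul_zero]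
      · simp [h]
    · have h1 : ∀ g ∈ range (Y.M (n + 1)), Y.tau (n + 1) p g * Y.blk m p' r' (n + 1, r, g)
          = 0 := by
        intro g _
        rw [Y.blk_eq_zero m p' r' (n + 1, r, g) (fun h => hm h.symm)
          (fun h => hm2 (by simpa using h.symm)), mul_zero]
      rw [sum_congr rfl h1]; simp

theorem Sys.alt_eq (n p r : ℕ) (hp : p < Y.N (n + 2)) (hr : r < Y.N (n + 1)) (z : E)
    (hz : z ∈ Y.Z) : Y.alpha (n + 1) p r z = Y.alt n p r z := by
  have hcl : IsClosed ((LinearMap.ker (Y.alpha (n + 1) p r - Y.alt n p r : E →L[ℝ] ℝ).toLinearMap :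
      Submodule ℝ E) : Set E) :=
    (Y.alpha (n + 1) p r - Y.alt n p r).isClosed_ker
  have h1 : Y.Z ≤ LinearMap.ker (Y.alpha (n + 1) p r - Y.alt n p r : E →L[ℝ] ℝ).toLinearMap := by
    apply Submodule.topologicalClosure_minimal _ _ hcl
    rw [Submodule.span_le]
    rintro _ ⟨t, rfl⟩
    change (Y.alpha (n + 1) p r - Y.alt n p r) (Y.blk t.1 t.2.1 t.2.2) = 0
    rw [_root_.sub_apply, Y.alt_blk n p r t.1 t.2.1 t.2.2 hp hr, sub_self]
  have h2 := h1 hz
  have h3 : (Y.alpha (n + 1) p r - Y.alt n p r) z = 0 := h2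
  rw [_root_.sub_apply, sub_eq_zero] at h3
  exact h3

/-- the vectors `phi_{p,g}`. -/
noncomputable def Sys.phi (n p g : ℕ) : Y.Z :=
  (1 / (Y.N (n + 2) : ℝ)) • ∑ p' ∈ range (Y.N (n + 2)), Y.tau (n + 1) p' g • Y.blkZ (n + 1) p' p
    - (1 / (Y.N n : ℝ)) • ∑ r ∈ range (Y.N n), Y.sig n r g • Y.blkZ n p r

theorem Sys.phi_apply (n p g : ℕ) (ω : Om) : ((Y.phi n p g : Y.Z) : E) ω =
    (1 / (Y.N (n + 2) : ℝ)) * ∑ p' ∈ range (Y.N (n + 2)), Y.tau (n + 1) p' g
      * Y.blkFun (n + 1) p' p ω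
    - (1 / (Y.N n : ℝ)) * ∑ r ∈ range (Y.N n), Y.sig n r g * Y.blkFun n p r ω := by
  unfold Sys.phi
  rw [Submodule.coe_sub, E.sub_apply, Submodule.coe_smul, Submodule.coe_smul, E.smul_apply,
    E.smul_apply, Submodule.coe_sum, Submodule.coe_sum, E.sum_apply, E.sum_apply]
  rfl

theorem Sys.eps_nonneg (n : ℕ) : 0 ≤ Y.eps n :=
  le_trans (by positivity) (Y.invN n)

theorem Sys.norm_phi_le (n p g : ℕ) (hp : p < Y.N (n + 1)) (hg : g < Y.M (n + 1)) :
    ‖Y.phi n p g‖ ≤ Y.eps n := by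
  have hN := Y.N_pos' n
  have hN2 := Y.N_pos' (n + 2)
  have he := Y.eps_nonneg n
  change ‖((Y.phi n p g : Y.Z) : E)‖ ≤ Y.eps n
  rw [E.norm_le he]
  rintro ⟨a, q, h⟩
  rw [Y.phi_apply]
  by_cases ha : a = n
  · subst ha
    have h1 : ∀ p' ∈ range (Y.N (a + 2)), Y.tau (a + 1) p' g * Y.blkFun (a + 1) p' p (a, q, h)
        = 0 := by
      intro p' _
      have : Y.blkFun (a + 1) p' p (a, q, h) = 0 :=
        Y.blk_eq_zero (a + 1) p' p (a, q, h) (by change a ≠ a + 1; omega)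
          (by change a ≠ a + 1 + 1; omega)
      rw [this, mul_zero]
    have h2 : ∀ r ∈ range (Y.N a), Y.sig a r g * Y.blkFun a p r (a, q, h)
        = if q = r then (if h < Y.M a then Y.sig a r g * Y.tau a p h else 0) else 0 := by
      intro r hr
      rw [mem_range] at hr
      unfold Sys.blkFun
      rw [if_pos ⟨hp, hr⟩]
      by_cases e1 : q = r
      · by_cases e2 : h < Y.M a
        · simp [e1, e2]
        · simp [e1, e2]
      · simp [e1]
    rw [sum_congr rfl h1, sum_congr rfl h2, sum_const_zero, mul_zero, zero_sub, abs_neg, abs_mul,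
      Finset.sum_ite_eq (range (Y.N a)) q]
    refine le_trans ?_ (Y.invN a)
    rw [abs_of_pos (by positivity)]
    refine mul_le_of_le_one_right (by positivity) ?_
    split_ifs
    · rw [abs_mul]
      exact mul_le_one₀ (Y.sig_le _ _ _) (abs_nonneg _) (Y.tau_le _ _ _)
    · simp
    · simp
  · by_cases ha1 : a = n + 1
    · subst ha1
      by_cases e : q = p ∧ h < Y.M (n + 1)
      · have h1 : ∀ p' ∈ range (Y.N (n + 2)), Y.tau (n + 1) p' g
            * Y.blkFun (n + 1) p' p (n + 1, q, h) = Y.tau (n + 1) p' g * Y.tau (n + 1) p' h := by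
          intro p' hp'
          rw [mem_range] at hp'
          unfold Sys.blkFun
          rw [if_pos ⟨hp', hp⟩]
          simp [e.1, e.2]
        have h2 : ∀ r ∈ range (Y.N n), Y.sig n r g * Y.blkFun n p r (n + 1, q, h)
            = Y.sig n r g * Y.sig n r h := by
          intro r hr
          rw [mem_range] at hr
          unfold Sys.blkFun
          rw [if_pos ⟨hp, hr⟩]
          simp [e.1, e.2]
        rw [sum_congr rfl h1, sum_congr rfl h2, one_div_mul_eq_div, one_div_mul_eq_div]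
        exact Y.ker n g h hg e.2
      · have h1 : ∀ p' ∈ range (Y.N (n + 2)), Y.tau (n + 1) p' g
            * Y.blkFun (n + 1) p' p (n + 1, q, h) = 0 := by
          intro p' hp'
          rw [mem_range] at hp'
          have : Y.blkFun (n + 1) p' p (n + 1, q, h) = 0 := by
            unfold Sys.blkFun
            rw [if_pos ⟨hp', hp⟩]
            have e1 : ¬ (n + 1 = n + 1 ∧ q = p ∧ h < Y.M (n + 1)) := fun hh => e hh.2
            rw [if_neg e1]
            simp
          rw [this, mul_zero]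
        have h2 : ∀ r ∈ range (Y.N n), Y.sig n r g * Y.blkFun n p r (n + 1, q, h) = 0 := by
          intro r hr
          rw [mem_range] at hr
          have : Y.blkFun n p r (n + 1, q, h) = 0 := by
            unfold Sys.blkFun
            rw [if_pos ⟨hp, hr⟩]
            have e1 : ¬ (n + 1 = n + 1 ∧ q = p ∧ h < Y.M (n + 1)) := fun hh => e hh.2
            rw [if_neg e1]
            simp
          rw [this, mul_zero]
        rw [sum_congr rfl h1, sum_congr rfl h2]
        simpa using he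
    · have h2 : ∀ r ∈ range (Y.N n), Y.sig n r g * Y.blkFun n p r (a, q, h) = 0 := by
        intro r _
        have : Y.blkFun n p r (a, q, h) = 0 := by
          unfold Sys.blkFun
          simp [ha, ha1]
        rw [this, mul_zero]
      rw [sum_congr rfl h2, sum_const_zero, mul_zero, sub_zero, abs_mul,
        abs_of_pos (by positivity)]
      by_cases ha2 : a = n + 2
      · subst ha2
        have h1 : ∀ p' ∈ range (Y.N (n + 2)), Y.tau (n + 1) p' g
            * Y.blkFun (n + 1) p' p (n + 2, q, h) = if q = p' then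
              (if h < Y.M (n + 2) then Y.tau (n + 1) p' g * Y.sig (n + 1) p h else 0) else 0 := by
          intro p' hp'
          rw [mem_range] at hp'
          unfold Sys.blkFun
          rw [if_pos ⟨hp', hp⟩]
          by_cases e1 : q = p'
          · by_cases e2 : h < Y.M (n + 2)
            · simp [e1, e2]
            · simp [e1, e2]
          · simp [e1]
        rw [sum_congr rfl h1, Finset.sum_ite_eq (range (Y.N (n + 2))) q]
        refine le_trans ?_ (Y.invN2 n)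
        refine mul_le_of_le_one_right (by positivity) ?_
        split_ifs
        · rw [abs_mul]
          exact mul_le_one₀ (Y.tau_le _ _ _) (abs_nonneg _) (Y.sig_le _ _ _)
        · simp
        · simp
      · have h1 : ∀ p' ∈ range (Y.N (n + 2)), Y.tau (n + 1) p' g
            * Y.blkFun (n + 1) p' p (a, q, h) = 0 := by
          intro p' _
          have : Y.blkFun (n + 1) p' p (a, q, h) = 0 := by
            unfold Sys.blkFun
            simp [ha1, ha2]
          rw [this, mul_zero]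
        rw [sum_congr rfl h1]
        simpa using he

theorem Sys.beta_succ_eq (n : ℕ) (T : Y.Z →L[ℝ] Y.Z) : Y.beta (n + 1) T
    = (∑ p ∈ range (Y.N (n + 1)), ∑ g ∈ range (Y.M (n + 1)),
      ((T ((1 / (Y.N (n + 2) : ℝ)) • ∑ p' ∈ range (Y.N (n + 2)), Y.tau (n + 1) p' g
        • Y.blkZ (n + 1) p' p) : Y.Z) : E) (n + 1, p, g))
      / ((Y.N (n + 1) : ℝ) * (Y.M (n + 1) : ℝ)) := by
  have hN := Y.N_pos' (n + 1)
  have hN2 := Y.N_pos' (n + 2)
  have hM := Y.M_pos' (n + 1)
  have h1 : ∀ p g : ℕ, ((T ((1 / (Y.N (n + 2) : ℝ)) • ∑ p' ∈ range (Y.N (n + 2)),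
      Y.tau (n + 1) p' g • Y.blkZ (n + 1) p' p) : Y.Z) : E) (n + 1, p, g)
      = (1 / (Y.N (n + 2) : ℝ)) * ∑ p' ∈ range (Y.N (n + 2)), Y.tau (n + 1) p' g *
        ((T (Y.blkZ (n + 1) p' p) : Y.Z) : E) (n + 1, p, g) := by
    intro p g
    rw [map_smul, map_sum, Submodule.coe_smul, E.smul_apply, Submodule.coe_sum, E.sum_apply]
    congr 1
    refine sum_congr rfl fun p' _ => ?_
    rw [map_smul, Submodule.coe_smul, E.smul_apply]
  simp only [h1]
  unfold Sys.beta
  have h2 : ∀ p' ∈ range (Y.N (n + 1 + 1)), ∀ p ∈ range (Y.N (n + 1)),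
      Y.alpha (n + 1) p' p ((T (Y.blkZ (n + 1) p' p) : Y.Z) : E)
      = (1 / (Y.M (n + 1) : ℝ)) * ∑ g ∈ range (Y.M (n + 1)), Y.tau (n + 1) p' g *
        ((T (Y.blkZ (n + 1) p' p) : Y.Z) : E) (n + 1, p, g) := by
    intro p' hp' p hp
    rw [mem_range] at hp hp'
    rw [Y.alt_eq n p' p hp' hp _ (T (Y.blkZ (n + 1) p' p)).2, Y.alt_apply]
  rw [sum_congr rfl (fun p' hp' => sum_congr rfl (h2 p' hp'))]
  simp only [← Finset.mul_sum]
  rw [Finset.sum_comm]
  have h3 : ∀ p : ℕ, ∑ p' ∈ range (Y.N (n + 1 + 1)), ∑ g ∈ range (Y.M (n + 1)),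
      Y.tau (n + 1) p' g * ((T (Y.blkZ (n + 1) p' p) : Y.Z) : E) (n + 1, p, g)
      = ∑ g ∈ range (Y.M (n + 1)), ∑ p' ∈ range (Y.N (n + 2)),
      Y.tau (n + 1) p' g * ((T (Y.blkZ (n + 1) p' p) : Y.Z) : E) (n + 1, p, g) := by
    intro p
    rw [Finset.sum_comm]
  rw [sum_congr rfl (fun p _ => h3 p)]
  have e : (Y.N (n + 1 + 1) : ℝ) = (Y.N (n + 2) : ℝ) := rfl
  rw [e]
  field_simp

theorem Sys.beta_eq (n : ℕ) (T : Y.Z →L[ℝ] Y.Z) : Y.beta n T
    = (∑ p ∈ range (Y.N (n + 1)), ∑ g ∈ range (Y.M (n + 1)),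
      ((T ((1 / (Y.N n : ℝ)) • ∑ r ∈ range (Y.N n), Y.sig n r g
        • Y.blkZ n p r) : Y.Z) : E) (n + 1, p, g))
      / ((Y.N (n + 1) : ℝ) * (Y.M (n + 1) : ℝ)) := by
  have hN := Y.N_pos' (n + 1)
  have hN0 := Y.N_pos' n
  have hM := Y.M_pos' (n + 1)
  have h1 : ∀ p g : ℕ, ((T ((1 / (Y.N n : ℝ)) • ∑ r ∈ range (Y.N n), Y.sig n r g
      • Y.blkZ n p r) : Y.Z) : E) (n + 1, p, g)
      = (1 / (Y.N n : ℝ)) * ∑ r ∈ range (Y.N n), Y.sig n r g *
        ((T (Y.blkZ n p r) : Y.Z) : E) (n + 1, p, g) := by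
    intro p g
    rw [map_smul, map_sum, Submodule.coe_smul, E.smul_apply, Submodule.coe_sum, E.sum_apply]
    congr 1
    refine sum_congr rfl fun r _ => ?_
    rw [map_smul, Submodule.coe_smul, E.smul_apply]
  simp only [h1]
  unfold Sys.beta
  simp only [Y.alpha_apply, ← Finset.mul_sum]
  have h3 : ∀ p : ℕ, ∑ r ∈ range (Y.N n), ∑ g ∈ range (Y.M (n + 1)),
      Y.sig n r g * ((T (Y.blkZ n p r) : Y.Z) : E) (n + 1, p, g)
      = ∑ g ∈ range (Y.M (n + 1)), ∑ r ∈ range (Y.N n),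
      Y.sig n r g * ((T (Y.blkZ n p r) : Y.Z) : E) (n + 1, p, g) := by
    intro p
    rw [Finset.sum_comm]
  rw [sum_congr rfl (fun p _ => h3 p)]
  field_simp

theorem Trc_proof : Stmt_Trc := by
  intro Y n T
  have hN := Y.N_pos' (n + 1)
  have hM := Y.M_pos' (n + 1)
  rw [Y.beta_succ_eq n T, Y.beta_eq n T, ← sub_div, ← Finset.sum_sub_distrib]
  simp only [← Finset.sum_sub_distrib]
  have h1 : ∀ p g : ℕ, ((T ((1 / (Y.N (n + 2) : ℝ)) • ∑ p' ∈ range (Y.N (n + 2)),
      Y.tau (n + 1) p' g • Y.blkZ (n + 1) p' p) : Y.Z) : E) (n + 1, p, g)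
      - ((T ((1 / (Y.N n : ℝ)) • ∑ r ∈ range (Y.N n), Y.sig n r g
      • Y.blkZ n p r) : Y.Z) : E) (n + 1, p, g)
      = ((T (Y.phi n p g) : Y.Z) : E) (n + 1, p, g) := by
    intro p g
    unfold Sys.phi
    rw [map_sub, Submodule.coe_sub, E.sub_apply]
  simp only [h1]
  rw [abs_div, abs_of_pos (by positivity : (0 : ℝ) < (Y.N (n + 1) : ℝ) * (Y.M (n + 1) : ℝ)),
    div_le_iff₀ (by positivity)]
  have h2 : ∀ p ∈ range (Y.N (n + 1)), ∀ g ∈ range (Y.M (n + 1)),
      |((T (Y.phi n p g) : Y.Z) : E) (n + 1, p, g)| ≤ ‖T‖ * Y.eps n := by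
    intro p hp g hg
    rw [mem_range] at hp hg
    refine (E.abs_le_norm _ _).trans ?_
    have h3 : ‖((T (Y.phi n p g) : Y.Z) : E)‖ = ‖T (Y.phi n p g)‖ := rfl
    rw [h3]
    exact (T.le_opNorm _).trans (mul_le_mul_of_nonneg_left (Y.norm_phi_le n p g hp hg)
      (norm_nonneg _))
  refine (abs_sum_le_sum_abs _ _).trans ?_
  refine (sum_le_sum fun p hp => (abs_sum_le_sum_abs _ _).trans
    (sum_le_sum fun g hg => h2 p hp g hg)).trans ?_
  simp only [sum_const, card_range, nsmul_eq_mul]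
  apply le_of_eq
  ring

end SLA
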