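import Mathlib

/-!
# MP_91c4ba_an : interface (helper71).  Paper proof: /team-store/MP_91c4ba_PROOF.md
-/

set_option autoImplicit false

namespace SLA

open scoped BoundedContinuousFunction

/-- Coordinates `(level n, slice p, group element g)`, a countable discrete space. -/
abbrev Om : Type := ℕ × ℕ × ℕ

/-- `l_infty(Om)`. -/
def E : Type := BoundedContinuousFunction Om ℝ

noncomputable instance : NormedAddCommGroup E :=
  inferInstanceAs (NormedAddCommGroup (BoundedContinuousFunction Om ℝ))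
noncomputable instance : NormedSpace ℝ E :=
  inferInstanceAs (NormedSpace ℝ (BoundedContinuousFunction Om ℝ))
instance : CompleteSpace E :=
  inferInstanceAs (CompleteSpace (BoundedContinuousFunction Om ℝ))
instance : FunLike E Om ℝ :=
  inferInstanceAs (FunLike (BoundedContinuousFunction Om ℝ) Om ℝ)

/-- A bounded function as an element of `E`. -/
noncomputable def E.mk (f : Om → ℝ) (C : ℝ) (h : ∀ ω, |f ω| ≤ C) : E :=
  BoundedContinuousFunction.ofNormedAddCommGroupDiscrete f C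
    (fun ω => by rw [Real.norm_eq_abs]; exact h ω)

@[simp] theorem E.mk_apply (f : Om → ℝ) (C : ℝ) (h : ∀ ω, |f ω| ≤ C) (ω : Om) :
    E.mk f C h ω = f ω := rfl

@[ext] theorem E.ext {x y : E} (h : ∀ ω, x ω = y ω) : x = y := DFunLike.ext _ _ h

@[simp] theorem E.zero_apply (ω : Om) : (0 : E) ω = 0 := rfl
@[simp] theorem E.add_apply (x y : E) (ω : Om) : (x + y) ω = x ω + y ω := rfl
@[simp] theorem E.sub_apply (x y : E) (ω : Om) : (x - y) ω = x ω - y ω := rfl
@[simp] theorem E.neg_apply (x : E) (ω : Om) : (-x) ω = - x ω := rfl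
@[simp] theorem E.smul_apply (c : ℝ) (x : E) (ω : Om) : (c • x) ω = c * x ω := rfl

theorem E.abs_le_norm (x : E) (ω : Om) : |x ω| ≤ ‖x‖ :=
  BoundedContinuousFunction.norm_coe_le_norm (x : BoundedContinuousFunction Om ℝ) ω

theorem E.norm_le {x : E} {C : ℝ} (hC : 0 ≤ C) : ‖x‖ ≤ C ↔ ∀ ω, |x ω| ≤ C :=
  BoundedContinuousFunction.norm_le (f := (x : BoundedContinuousFunction Om ℝ)) hC

/-- Evaluation at a coordinate. -/
noncomputable def ev (ω : Om) : E →L[ℝ] ℝ :=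
  LinearMap.mkContinuous
    { toFun := fun x => x ω, map_add' := fun _ _ => rfl, map_smul' := fun _ _ => rfl } 1
    (fun x => by rw [one_mul]; exact E.abs_le_norm x ω)

theorem ev_apply (ω : Om) (x : E) : ev ω x = x ω := rfl

theorem E.sum_apply {ι : Type*} (F : Finset ι) (f : ι → E) (ω : Om) :
    (∑ i ∈ F, f i) ω = ∑ i ∈ F, f i ω :=
  map_sum (ev ω) f F

/-- A Davie system (section 1 of the paper proof), with `P_n = {0,..,N n - 1}`, `G_n = {0,..,M n - 1}`. -/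
structure Sys where
  N : ℕ → ℕ
  M : ℕ → ℕ
  sig : ℕ → ℕ → ℕ → ℝ
  tau : ℕ → ℕ → ℕ → ℝ
  eps : ℕ → ℝ
  N_pos : ∀ n, 0 < N n
  M_pos : ∀ n, 0 < M n
  sig_le : ∀ n r g, |sig n r g| ≤ 1
  tau_le : ∀ n p g, |tau n p g| ≤ 1
  sig_orth : ∀ n r r', r < N n → r' < N n →
    ∑ g ∈ Finset.range (M (n + 1)), sig n r g * sig n r' g = if r = r' then (M (n + 1) : ℝ) else 0
  tau_orth : ∀ n p p', p < N (n + 2) → p' < N (n + 2) →
    ∑ g ∈ Finset.range (M (n + 1)), tau (n + 1) p g * tau (n + 1) p' g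
      = if p = p' then (M (n + 1) : ℝ) else 0
  cross : ∀ n r p, r < N n → p < N (n + 2) →
    ∑ g ∈ Finset.range (M (n + 1)), sig n r g * tau (n + 1) p g = 0
  ker : ∀ n g h, g < M (n + 1) → h < M (n + 1) →
    |(∑ p ∈ Finset.range (N (n + 2)), tau (n + 1) p g * tau (n + 1) p h) / (N (n + 2) : ℝ)
      - (∑ r ∈ Finset.range (N n), sig n r g * sig n r h) / (N n : ℝ)| ≤ eps n
  invN : ∀ n, 1 / (N n : ℝ) ≤ eps n
  invN2 : ∀ n, 1 / (N (n + 2) : ℝ) ≤ eps n
  summable : Summable eps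

variable (Y : Sys)

/-- The vectors `e^n_{p,r}` as functions (zero unless `p < N (n+1)` and `r < N n`). -/
def Sys.blkFun (n p r : ℕ) : Om → ℝ := fun ω =>
  if p < Y.N (n + 1) ∧ r < Y.N n then
    if ω.1 = n ∧ ω.2.1 = r ∧ ω.2.2 < Y.M n then Y.tau n p ω.2.2
    else if ω.1 = n + 1 ∧ ω.2.1 = p ∧ ω.2.2 < Y.M (n + 1) then Y.sig n r ω.2.2
    else 0
  else 0

theorem Sys.abs_blkFun_le (n p r : ℕ) (ω : Om) : |Y.blkFun n p r ω| ≤ 1 := by
  unfold Sys.blkFun
  split_ifs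
  · exact Y.tau_le _ _ _
  · exact Y.sig_le _ _ _
  · simp
  · simp

/-- The vectors `e^n_{p,r}`. -/
noncomputable def Sys.blk (n p r : ℕ) : E := E.mk (Y.blkFun n p r) 1 (Y.abs_blkFun_le n p r)

theorem Sys.blk_apply (n p r : ℕ) (ω : Om) : Y.blk n p r ω = Y.blkFun n p r ω := rfl

/-- The functionals `alpha^n_{p,r}`. -/
noncomputable def Sys.alpha (n p r : ℕ) : E →L[ℝ] ℝ :=
  (1 / (Y.M (n + 1) : ℝ)) • ∑ g ∈ Finset.range (Y.M (n + 1)), Y.sig n r g • ev (n + 1, p, g)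

/-- `Z` = closed linear span of all `e^n_{p,r}`. -/
noncomputable def Sys.Z : Submodule ℝ E :=
  (Submodule.span ℝ (Set.range (fun t : ℕ × ℕ × ℕ => Y.blk t.1 t.2.1 t.2.2))).topologicalClosure

theorem Sys.blk_mem (n p r : ℕ) : Y.blk n p r ∈ Y.Z :=
  Submodule.le_topologicalClosure _ (Submodule.subset_span ⟨(n, p, r), rfl⟩)

/-- `e^n_{p,r}` as an element of `Z`. -/
noncomputable def Sys.blkZ (n p r : ℕ) : Y.Z := ⟨Y.blk n p r, Y.blk_mem n p r⟩

@[simp] theorem Sys.coe_blkZ (n p r : ℕ) : (Y.blkZ n p r : E) = Y.blk n p r := rfl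

/-- The trace functionals `beta_n(T)`. -/
noncomputable def Sys.beta (n : ℕ) (T : Y.Z →L[ℝ] Y.Z) : ℝ :=
  (∑ p ∈ Finset.range (Y.N (n + 1)), ∑ r ∈ Finset.range (Y.N n),
    Y.alpha n p r (T (Y.blkZ n p r) : E)) / ((Y.N (n + 1) : ℝ) * (Y.N n : ℝ))

/-- A partial function `m ↦ (p, r)`. -/
abbrev PF : Type := ℕ → Option (ℕ × ℕ)

/-- The term of `x_gamma` at level `m` (the block of even index `2 m`). -/
noncomputable def Sys.trm (γ : PF) (m : ℕ) : E :=
  match γ m with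
  | none => 0
  | some j => Y.blk (2 * m) j.1 j.2

/-- The values of `x_gamma`; the level of `ω` is `ω.1 / 2`. -/
noncomputable def Sys.xFun (γ : PF) : Om → ℝ := fun ω => Y.trm γ (ω.1 / 2) ω

theorem Sys.abs_xFun_le (γ : PF) (ω : Om) : |Y.xFun γ ω| ≤ 1 := by
  unfold Sys.xFun Sys.trm
  split
  · simp
  · exact Y.abs_blkFun_le _ _ _ ω

/-- `x_gamma`. -/
noncomputable def Sys.xv (γ : PF) : E := E.mk (Y.xFun γ) 1 (Y.abs_xFun_le γ)

theorem Sys.xv_apply (γ : PF) (ω : Om) : Y.xv γ ω = Y.xFun γ ω := rfl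

/-- An almost disjoint family of partial functions, indexed by `I`. -/
structure Sys.AD (I : Type) (pf : I → PF) : Prop where
  inf : ∀ i, {m | pf i m ≠ none}.Infinite
  ad : ∀ i i', i ≠ i' → {m | pf i m ≠ none ∧ pf i' m ≠ none}.Finite
  valid : ∀ i m j, pf i m = some j → j.1 < Y.N (2 * m + 1) ∧ j.2 < Y.N (2 * m)

/-- `X` = closed linear span of `Z` and all `x_gamma`. -/
noncomputable def Sys.X (I : Type) (pf : I → PF) : Submodule ℝ E :=
  (Y.Z ⊔ Submodule.span ℝ (Set.range (fun i : I => Y.xv (pf i)))).topologicalClosure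

theorem Sys.Z_le_X (I : Type) (pf : I → PF) : Y.Z ≤ Y.X I pf :=
  le_trans le_sup_left (Submodule.le_topologicalClosure _)

theorem Sys.xv_mem (I : Type) (pf : I → PF) (i : I) : Y.xv (pf i) ∈ Y.X I pf :=
  Submodule.le_topologicalClosure _
    (Submodule.mem_sup_right (Submodule.subset_span ⟨i, rfl⟩))

theorem Sys.trm_mem_Z (γ : PF) (m : ℕ) : Y.trm γ m ∈ Y.Z := by
  unfold Sys.trm
  split
  · exact Submodule.zero_mem _
  · exact Y.blk_mem _ _ _

/-- The term as an element of `Z`. -/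
noncomputable def Sys.trmZ (γ : PF) (m : ℕ) : Y.Z := ⟨Y.trm γ m, Y.trm_mem_Z γ m⟩

@[simp] theorem Sys.coe_trmZ (γ : PF) (m : ℕ) : (Y.trmZ γ m : E) = Y.trm γ m := rfl

/-- `x_gamma` as an element of `X`. -/
noncomputable def Sys.xvX (I : Type) (pf : I → PF) (i : I) : Y.X I pf :=
  ⟨Y.xv (pf i), Y.xv_mem I pf i⟩

@[simp] theorem Sys.coe_xvX (I : Type) (pf : I → PF) (i : I) :
    (Y.xvX I pf i : E) = Y.xv (pf i) := rfl

/-- The inclusion `Z → X`. -/
noncomputable def Sys.incl (I : Type) (pf : I → PF) : Y.Z →L[ℝ] Y.X I pf :=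
  (Y.Z.subtypeL).codRestrict (Y.X I pf) (fun z => Y.Z_le_X I pf z.2)

@[simp] theorem Sys.coe_incl (I : Type) (pf : I → PF) (z : Y.Z) :
    ((Y.incl I pf z : Y.X I pf) : E) = (z : E) := rfl

/-- Coding of histories: every list has infinitely many codes. -/
noncomputable def hist (m : ℕ) : List (ℕ × ℕ × ℕ) :=
  Denumerable.ofNat (List (ℕ × ℕ × ℕ)) (Nat.unpair m).1

/-- A branch is a sequence `i ↦ (m_i, p_i, r_i)`. -/
structure Sys.IsBranch (s : ℕ → ℕ × ℕ × ℕ) : Prop where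
  mono : StrictMono (fun i => (s i).1)
  valid : ∀ i, (s i).2.1 < Y.N (2 * (s i).1 + 1) ∧ (s i).2.2 < Y.N (2 * (s i).1)
  hist : ∀ i, hist (s i).1 = (List.range i).map s

/-- The type of branches. -/
def Sys.Br : Type := {s : ℕ → ℕ × ℕ × ℕ // Y.IsBranch s}

open Classical in
/-- The partial function of a branch. -/
noncomputable def Sys.pfB (s : Y.Br) : PF := fun m =>
  if h : ∃ i, (s.1 i).1 = m then some (s.1 h.choose).2 else none

end SLA
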